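import Pool.Agent.EGFour.Defs

set_option autoImplicit false
set_option linter.unusedSectionVars false

open Finset

namespace EG

/-- TARGET: prove this -/
theorem count_update {V : Type} [DecidableEq V] (W : Finset V) (t : ℕ) (i0 : Fin t)
    (E : (Fin t → V) → Prop) [DecidablePred E] (θ : ℝ)
    (h : ∀ f ∈ Fintype.piFinset (fun _ : Fin t => W),
      ((W.filter (fun y => E (Function.update f i0 y))).card : ℝ) ≤ θ * W.card) :
    (((Fintype.piFinset (fun _ : Fin t => W)).filter E).card : ℝ) ≤ θ * (W.card : ℝ) ^ t := by
  set P := Fintype.piFinset (fun _ : Fin t => W) with hP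
  have hcP : P.card = W.card ^ t := by simp [hP]
  have hA : ((P ×ˢ W).filter (fun p => E (Function.update p.1 i0 p.2))).card
      = ∑ f ∈ P, (W.filter (fun y => E (Function.update f i0 y))).card := by
    rw [card_filter, sum_product]
    exact sum_congr rfl fun f _ => (card_filter _ _).symm
  have hB : ((P ×ˢ W).filter (fun p => E p.1)).card = (P.filter E).card * W.card := by
    rw [← card_product, ← filter_product_left]
  have hAB : ((P ×ˢ W).filter (fun p => E (Function.update p.1 i0 p.2))).card
      = ((P ×ˢ W).filter (fun p => E p.1)).card := by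
    refine card_nbij' (fun p => (Function.update p.1 i0 p.2, p.1 i0))
      (fun p => (Function.update p.1 i0 p.2, p.1 i0)) ?_ ?_ ?_ ?_
    · rintro ⟨f, y⟩ hp
      simp only [mem_coe, mem_filter, mem_product, hP, Fintype.mem_piFinset] at hp ⊢
      refine ⟨⟨fun j => ?_, hp.1.1 i0⟩, hp.2⟩
      by_cases hj : j = i0
      · subst hj
        simpa using hp.1.2
      · rw [Function.update_of_ne hj]
        exact hp.1.1 j
    · rintro ⟨f, y⟩ hp
      simp only [mem_coe, mem_filter, mem_product, hP, Fintype.mem_piFinset] at hp ⊢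
      refine ⟨⟨fun j => ?_, hp.1.1 i0⟩, ?_⟩
      · by_cases hj : j = i0
        · subst hj
          simpa using hp.1.2
        · rw [Function.update_of_ne hj]
          exact hp.1.1 j
      · simpa using hp.2
    · rintro ⟨f, y⟩ _
      simp
    · rintro ⟨f, y⟩ _
      simp
  have h1 : ((P.filter E).card : ℝ) * W.card ≤ (θ * (W.card : ℝ) ^ t) * W.card := by
    have e1 : ((P.filter E).card : ℝ) * W.card
        = ∑ f ∈ P, ((W.filter (fun y => E (Function.update f i0 y))).card : ℝ) := by
      rw [← Nat.cast_sum, ← hA, hAB, hB, Nat.cast_mul]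
    rw [e1]
    refine (sum_le_sum h).trans (le_of_eq ?_)
    rw [sum_const, hcP, nsmul_eq_mul, Nat.cast_pow]
    ring
  rcases Nat.eq_zero_or_pos W.card with h0 | h0
  · have ht : t ≠ 0 := by
      rintro rfl
      exact i0.elim0
    have hP0 : P.card = 0 := by rw [hcP, h0, zero_pow ht]
    have : (P.filter E).card = 0 := Nat.le_zero.mp ((card_filter_le _ _).trans hP0.le)
    rw [this, h0]
    simp [ht]
  · exact le_of_mul_le_mul_right h1 (by exact_mod_cast h0)


end EG
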