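import Pool.Agent.EGFour.A0

set_option autoImplicit false
set_option linter.unusedSectionVars false

open Finset

namespace EG

theorem sl_fiber {α C : Type} [DecidableEq α] [DecidableEq C] (A : Finset α) (φ : α → C) :
    A.card ≤ (A.image φ).card +
      ((A ×ˢ A).filter (fun q => q.1 ≠ q.2 ∧ φ q.1 = φ q.2)).card := by
  classical
  rcases A.eq_empty_or_nonempty with rfl | hA
  · simp
  have hne : Nonempty α := ⟨hA.choose⟩
  set r : α → α := fun a => Function.invFunOn φ (A : Set α) (φ a) with hr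
  have hrA : ∀ a ∈ A, r a ∈ A ∧ φ (r a) = φ a := by
    intro a ha
    have h : ∃ b ∈ (A : Set α), φ b = φ a := ⟨a, ha, rfl⟩
    exact ⟨Function.invFunOn_mem h, Function.invFunOn_eq h⟩
  have h1 : (A.filter (fun a => r a = a)).card ≤ (A.image φ).card := by
    refine Finset.card_le_card_of_injOn φ
      (fun a ha => Finset.mem_image_of_mem φ (Finset.mem_filter.1 ha).1) ?_
    intro a ha b hb hab
    have ha' := (Finset.mem_filter.1 ha).2
    have hb' := (Finset.mem_filter.1 hb).2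
    have h3 : r a = r b := by
      rw [hr]
      show Function.invFunOn φ (A : Set α) (φ a) = Function.invFunOn φ (A : Set α) (φ b)
      rw [hab]
    rw [← ha', ← hb', h3]
  have h2 : (A.filter (fun a => ¬ r a = a)).card ≤
      ((A ×ˢ A).filter (fun q => q.1 ≠ q.2 ∧ φ q.1 = φ q.2)).card := by
    refine Finset.card_le_card_of_injOn (fun a => (a, r a)) ?_ ?_
    · intro a ha
      obtain ⟨ha1, ha2⟩ := Finset.mem_filter.1 ha
      refine Finset.mem_coe.2 (Finset.mem_filter.2 ⟨Finset.mem_product.2 ⟨ha1, (hrA a ha1).1⟩, ?_, ?_⟩)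
      · exact fun h => ha2 h.symm
      · exact (hrA a ha1).2.symm
    · intro a _ b _ hab
      exact congrArg Prod.fst hab
  have h3 := Finset.card_filter_add_card_filter_not (s := A) (fun a => r a = a)
  omega

/-- good pairs of indices -/
def slA {V : Type} [DecidableEq V] (G : Finset (V × V)) {t : ℕ} (f g : Fin t → V) :
    Finset (Fin t × Fin t) := Finset.univ.filter (fun p => (f p.1, g p.2) ∈ G)

/-- collisions -/
def slE {V C : Type} (c : V → V → C) (G : Finset (V × V)) {t : ℕ}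
    (q : (Fin t × Fin t) × (Fin t × Fin t)) (f g : Fin t → V) : Prop :=
  (f q.1.1, g q.1.2) ∈ G ∧ (f q.2.1, g q.2.2) ∈ G ∧
    c (f q.1.1) (g q.1.2) = c (f q.2.1) (g q.2.2)

theorem sl_one {V C : Type} [DecidableEq V] [DecidableEq C] (c : V → V → C) (B : ℕ)
    (X : Finset V) (hX : Sparse c B X) (W0 W1 : Finset V) (h0 : W0 ⊆ X) (h1 : W1 ⊆ X)
    (G : Finset (V × V)) (hne : ∀ p ∈ G, p.1 ≠ p.2) (t : ℕ) (f g : Fin t → V)
    (hf : ∀ i, f i ∈ W0) (hg : ∀ i, g i ∈ W1) [∀ q, Decidable (slE c G q f g)] :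
    (slA G f g).card ≤ 2 * B * t + (Finset.univ.filter
      (fun q : (Fin t × Fin t) × (Fin t × Fin t) => q.1 ≠ q.2 ∧ slE c G q f g)).card := by
  classical
  have hfib := sl_fiber (slA G f g) (fun p => c (f p.1) (g p.2))
  set T : Finset V := Finset.univ.image f ∪ Finset.univ.image g with hT
  have hTX : T ⊆ X := by
    intro x hx
    rcases Finset.mem_union.1 hx with h | h
    · obtain ⟨i, _, rfl⟩ := Finset.mem_image.1 h
      exact h0 (hf i)
    · obtain ⟨i, _, rfl⟩ := Finset.mem_image.1 h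
      exact h1 (hg i)
  have hTc : T.card ≤ 2 * t := by
    refine (Finset.card_union_le _ _).trans ?_
    have h2 : (Finset.univ.image f).card ≤ t := by
      refine Finset.card_image_le.trans ?_
      rw [Finset.card_univ, Fintype.card_fin]
    have h3 : (Finset.univ.image g).card ≤ t := by
      refine Finset.card_image_le.trans ?_
      rw [Finset.card_univ, Fintype.card_fin]
    omega
  have himg : (slA G f g).image (fun p => c (f p.1) (g p.2)) ⊆ cols c T := by
    intro k hk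
    obtain ⟨p, hp, rfl⟩ := Finset.mem_image.1 hk
    have hpG : (f p.1, g p.2) ∈ G := (Finset.mem_filter.1 hp).2
    exact mem_cols (Finset.mem_union_left _ (Finset.mem_image_of_mem f (Finset.mem_univ _)))
      (Finset.mem_union_right _ (Finset.mem_image_of_mem g (Finset.mem_univ _))) (hne _ hpG)
  have hcard : ((slA G f g).image (fun p => c (f p.1) (g p.2))).card ≤ 2 * B * t := by
    refine (Finset.card_le_card himg).trans ((hX T hTX).trans ?_)
    calc B * T.card ≤ B * (2 * t) := Nat.mul_le_mul_left _ hTc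
      _ = 2 * B * t := by ring
  have hsub : (((slA G f g) ×ˢ (slA G f g)).filter
      (fun q => q.1 ≠ q.2 ∧ c (f q.1.1) (g q.1.2) = c (f q.2.1) (g q.2.2))).card ≤
      (Finset.univ.filter
      (fun q : (Fin t × Fin t) × (Fin t × Fin t) => q.1 ≠ q.2 ∧ slE c G q f g)).card := by
    apply Finset.card_le_card
    intro q hq
    obtain ⟨hq1, hq2, hq3⟩ := Finset.mem_filter.1 hq
    obtain ⟨hq4, hq5⟩ := Finset.mem_product.1 hq1
    exact Finset.mem_filter.2 ⟨Finset.mem_univ _, hq2, (Finset.mem_filter.1 hq4).2,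
      (Finset.mem_filter.1 hq5).2, hq3⟩
  omega

theorem sl_two {V : Type} [DecidableEq V] (W0 W1 : Finset V) (G : Finset (V × V))
    (hG : G ⊆ W0 ×ˢ W1) (η : ℝ) (hη : η * (W0.card * W1.card) ≤ G.card) (t : ℕ) (i j : Fin t) :
    η * ((W0.card : ℝ) ^ t * (W1.card : ℝ) ^ t) ≤
      ∑ f ∈ Fintype.piFinset (fun _ : Fin t => W0), ∑ g ∈ Fintype.piFinset (fun _ : Fin t => W1),
        (if (f i, g j) ∈ G then (1 : ℝ) else 0) := by
  have h1 : ∀ f : Fin t → V, ∑ g ∈ Fintype.piFinset (fun _ : Fin t => W1),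
      (if (f i, g j) ∈ G then (1 : ℝ) else 0) =
      (W1.card : ℝ) ^ (t - 1) * ∑ y ∈ W1, (if (f i, y) ∈ G then (1 : ℝ) else 0) := by
    intro f
    have h := Fintype.sum_piFinset_apply (fun y => if (f i, y) ∈ G then (1 : ℝ) else 0) W1 j
    rw [h, Fintype.card_fin, nsmul_eq_mul]
    push_cast
    rfl
  rw [Finset.sum_congr rfl (fun f _ => h1 f), ← Finset.mul_sum]
  have h2 := Fintype.sum_piFinset_apply
    (fun x => ∑ y ∈ W1, (if (x, y) ∈ G then (1 : ℝ) else 0)) W0 i
  rw [h2, Fintype.card_fin, nsmul_eq_mul]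
  push_cast
  have h3 : ∑ x ∈ W0, ∑ y ∈ W1, (if (x, y) ∈ G then (1 : ℝ) else 0) = (G.card : ℝ) := by
    rw [← Finset.sum_product', Finset.sum_boole]
    congr 2
    ext p
    rw [Finset.mem_filter]
    exact ⟨fun h => h.2, fun h => ⟨hG h, h⟩⟩
  rw [h3]
  have ht : t = (t - 1) + 1 := by
    have := i.pos
    omega
  have h4 : (W0.card : ℝ) ^ t = (W0.card : ℝ) ^ (t - 1) * W0.card := by
    conv_lhs => rw [ht, pow_succ]
  have h5 : (W1.card : ℝ) ^ t = (W1.card : ℝ) ^ (t - 1) * W1.card := by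
    conv_lhs => rw [ht, pow_succ]
  rw [h4, h5]
  have h6 : 0 ≤ (W0.card : ℝ) ^ (t - 1) * (W1.card : ℝ) ^ (t - 1) :=
    mul_nonneg (pow_nonneg (Nat.cast_nonneg _) _) (pow_nonneg (Nat.cast_nonneg _) _)
  have h7 := mul_le_mul_of_nonneg_left hη h6
  calc η * ((W0.card : ℝ) ^ (t - 1) * W0.card * ((W1.card : ℝ) ^ (t - 1) * W1.card))
      = (W0.card : ℝ) ^ (t - 1) * (W1.card : ℝ) ^ (t - 1) * (η * (W0.card * W1.card)) := by ring
    _ ≤ (W0.card : ℝ) ^ (t - 1) * (W1.card : ℝ) ^ (t - 1) * G.card := h7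
    _ = _ := by ring

theorem sl_three {V C : Type} [DecidableEq V] [DecidableEq C] (c : V → V → C)
    (W0 W1 : Finset V) (G : Finset (V × V)) (θ : ℝ)
    (hx : ∀ x ∈ W0, ∀ k : C,
      ((W1.filter (fun y => (x, y) ∈ G ∧ c x y = k)).card : ℝ) ≤ θ * W1.card)
    (hy : ∀ y ∈ W1, ∀ k : C,
      ((W0.filter (fun x => (x, y) ∈ G ∧ c x y = k)).card : ℝ) ≤ θ * W0.card)
    (t : ℕ) (q : (Fin t × Fin t) × (Fin t × Fin t)) (hq : q.1 ≠ q.2)
    [∀ f g : Fin t → V, Decidable (slE c G q f g)] :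
    ∑ f ∈ Fintype.piFinset (fun _ : Fin t => W0), ∑ g ∈ Fintype.piFinset (fun _ : Fin t => W1),
        (if slE c G q f g then (1 : ℝ) else 0) ≤ θ * ((W0.card : ℝ) ^ t * (W1.card : ℝ) ^ t) := by
  classical
  obtain ⟨⟨i, j⟩, ⟨i', j'⟩⟩ := q
  have hc0 : ((Fintype.piFinset (fun _ : Fin t => W0)).card : ℝ) = (W0.card : ℝ) ^ t := by
    rw [Fintype.card_piFinset_const]; push_cast; rfl
  have hc1 : ((Fintype.piFinset (fun _ : Fin t => W1)).card : ℝ) = (W1.card : ℝ) ^ t := by
    rw [Fintype.card_piFinset_const]; push_cast; rfl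
  by_cases hi : i = i'
  · have hj : j ≠ j' := by
      intro h
      exact hq (by rw [hi, h])
    have key : ∀ f ∈ Fintype.piFinset (fun _ : Fin t => W0),
        ∑ g ∈ Fintype.piFinset (fun _ : Fin t => W1),
          (if slE c G ((i, j), (i', j')) f g then (1 : ℝ) else 0) ≤ θ * (W1.card : ℝ) ^ t := by
      intro f hf
      rw [Finset.sum_boole]
      refine count_update W1 t j' (fun g => slE c G ((i, j), (i', j')) f g) θ ?_
      intro g hg
      have hfi : f i' ∈ W0 := Fintype.mem_piFinset.1 hf i'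
      refine le_trans ?_ (hx (f i') hfi (c (f i) (g j)))
      have hsub : (W1.filter (fun y => slE c G ((i, j), (i', j')) f (Function.update g j' y))) ⊆
          W1.filter (fun y => (f i', y) ∈ G ∧ c (f i') y = c (f i) (g j)) := by
        intro y hy'
        obtain ⟨hy1, hy2⟩ := Finset.mem_filter.1 hy'
        obtain ⟨e1, e2, e3⟩ := hy2
        simp only [Function.update_self, Function.update_of_ne hj] at e1 e2 e3
        exact Finset.mem_filter.2 ⟨hy1, e2, e3.symm⟩
      exact_mod_cast Finset.card_le_card hsub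
    calc _ ≤ ∑ f ∈ Fintype.piFinset (fun _ : Fin t => W0), θ * (W1.card : ℝ) ^ t :=
          Finset.sum_le_sum key
      _ = θ * ((W0.card : ℝ) ^ t * (W1.card : ℝ) ^ t) := by
          rw [Finset.sum_const, nsmul_eq_mul, hc0]; ring
  · have key : ∀ g ∈ Fintype.piFinset (fun _ : Fin t => W1),
        ∑ f ∈ Fintype.piFinset (fun _ : Fin t => W0),
          (if slE c G ((i, j), (i', j')) f g then (1 : ℝ) else 0) ≤ θ * (W0.card : ℝ) ^ t := by
      intro g hg
      rw [Finset.sum_boole]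
      refine count_update W0 t i' (fun f => slE c G ((i, j), (i', j')) f g) θ ?_
      intro f hf
      have hgj : g j' ∈ W1 := Fintype.mem_piFinset.1 hg j'
      refine le_trans ?_ (hy (g j') hgj (c (f i) (g j)))
      have hsub : (W0.filter (fun y => slE c G ((i, j), (i', j')) (Function.update f i' y) g)) ⊆
          W0.filter (fun x => (x, g j') ∈ G ∧ c x (g j') = c (f i) (g j)) := by
        intro y hy'
        obtain ⟨hy1, hy2⟩ := Finset.mem_filter.1 hy'
        obtain ⟨e1, e2, e3⟩ := hy2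
        simp only [Function.update_self, Function.update_of_ne hi] at e1 e2 e3
        exact Finset.mem_filter.2 ⟨hy1, e2, e3.symm⟩
      exact_mod_cast Finset.card_le_card hsub
    rw [Finset.sum_comm]
    calc _ ≤ ∑ g ∈ Fintype.piFinset (fun _ : Fin t => W1), θ * (W0.card : ℝ) ^ t :=
          Finset.sum_le_sum key
      _ = θ * ((W0.card : ℝ) ^ t * (W1.card : ℝ) ^ t) := by
          rw [Finset.sum_const, nsmul_eq_mul, hc1]; ring

/-- TARGET: prove this -/
theorem sample_lemma {V C : Type} [DecidableEq V] [DecidableEq C] (c : V → V → C) (B : ℕ)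
    (X : Finset V) (hX : Sparse c B X) (W0 W1 : Finset V) (h0 : W0 ⊆ X) (h1 : W1 ⊆ X)
    (hn0 : W0.Nonempty) (hn1 : W1.Nonempty) (G : Finset (V × V)) (hG : G ⊆ W0 ×ˢ W1)
    (hne : ∀ p ∈ G, p.1 ≠ p.2) (η θ : ℝ)
    (hη : η * (W0.card * W1.card) ≤ G.card)
    (hx : ∀ x ∈ W0, ∀ k : C,
      ((W1.filter (fun y => (x, y) ∈ G ∧ c x y = k)).card : ℝ) ≤ θ * W1.card)
    (hy : ∀ y ∈ W1, ∀ k : C,
      ((W0.filter (fun x => (x, y) ∈ G ∧ c x y = k)).card : ℝ) ≤ θ * W0.card)
    (t : ℕ) : η * (t : ℝ) ^ 2 - θ * (t : ℝ) ^ 4 ≤ 2 * B * t := by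
  classical
  have hW0 : (0 : ℝ) < W0.card := by exact_mod_cast hn0.card_pos
  have hW1 : (0 : ℝ) < W1.card := by exact_mod_cast hn1.card_pos
  have hθ : 0 ≤ θ := by
    obtain ⟨x, hxW⟩ := hn0
    have h := hx x hxW (c x x)
    have h2 : (0 : ℝ) ≤ θ * W1.card := le_trans (Nat.cast_nonneg _) h
    by_contra hneg
    exact absurd h2 (not_le.2 (mul_neg_of_neg_of_pos (not_le.1 hneg) hW1))
  set P0 := Fintype.piFinset (fun _ : Fin t => W0) with hP0
  set P1 := Fintype.piFinset (fun _ : Fin t => W1) with hP1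
  have hc0 : (P0.card : ℝ) = (W0.card : ℝ) ^ t := by
    rw [hP0, Fintype.card_piFinset_const]; push_cast; rfl
  have hc1 : (P1.card : ℝ) = (W1.card : ℝ) ^ t := by
    rw [hP1, Fintype.card_piFinset_const]; push_cast; rfl
  set Wt : ℝ := (W0.card : ℝ) ^ t * (W1.card : ℝ) ^ t with hWt
  have hWtpos : 0 < Wt := by positivity
  -- pointwise inequality
  have hpt : ∀ f ∈ P0, ∀ g ∈ P1, ((slA G f g).card : ℝ) ≤ 2 * B * t +
      ((Finset.univ.filter
        (fun q : (Fin t × Fin t) × (Fin t × Fin t) => q.1 ≠ q.2 ∧ slE c G q f g)).card : ℝ) := by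
    intro f hf g hg
    have h := sl_one c B X hX W0 W1 h0 h1 G hne t f g (fun i => Fintype.mem_piFinset.1 hf i)
      (fun i => Fintype.mem_piFinset.1 hg i)
    exact_mod_cast h
  have hA : η * (t : ℝ) ^ 2 * Wt ≤ ∑ f ∈ P0, ∑ g ∈ P1, ((slA G f g).card : ℝ) := by
    have h2 : ∀ f g : Fin t → V, ((slA G f g).card : ℝ) =
        ∑ p : Fin t × Fin t, (if (f p.1, g p.2) ∈ G then (1 : ℝ) else 0) := by
      intro f g
      rw [Finset.sum_boole]; rfl
    have h3 : ∑ f ∈ P0, ∑ g ∈ P1, ((slA G f g).card : ℝ) =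
        ∑ p : Fin t × Fin t, ∑ f ∈ P0, ∑ g ∈ P1, (if (f p.1, g p.2) ∈ G then (1 : ℝ) else 0) := by
      simp only [h2]
      exact (Finset.sum_congr rfl fun f _ => Finset.sum_comm).trans Finset.sum_comm
    rw [h3]
    calc η * (t : ℝ) ^ 2 * Wt = ∑ _p : Fin t × Fin t, η * Wt := by
          rw [Finset.sum_const, Finset.card_univ, Fintype.card_prod, Fintype.card_fin,
            nsmul_eq_mul]
          push_cast
          ring
      _ ≤ _ := Finset.sum_le_sum fun p _ => sl_two W0 W1 G hG η hη t p.1 p.2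
  have hC : ∑ f ∈ P0, ∑ g ∈ P1, ((Finset.univ.filter
        (fun q : (Fin t × Fin t) × (Fin t × Fin t) => q.1 ≠ q.2 ∧ slE c G q f g)).card : ℝ) ≤
      θ * (t : ℝ) ^ 4 * Wt := by
    have h2 : ∀ f g : Fin t → V, ((Finset.univ.filter
        (fun q : (Fin t × Fin t) × (Fin t × Fin t) => q.1 ≠ q.2 ∧ slE c G q f g)).card : ℝ) =
        ∑ q : (Fin t × Fin t) × (Fin t × Fin t),
          (if q.1 ≠ q.2 ∧ slE c G q f g then (1 : ℝ) else 0) := by
      intro f g
      rw [Finset.sum_boole]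
    have h3 : ∑ f ∈ P0, ∑ g ∈ P1, ((Finset.univ.filter
        (fun q : (Fin t × Fin t) × (Fin t × Fin t) => q.1 ≠ q.2 ∧ slE c G q f g)).card : ℝ) =
        ∑ q : (Fin t × Fin t) × (Fin t × Fin t), ∑ f ∈ P0, ∑ g ∈ P1,
          (if q.1 ≠ q.2 ∧ slE c G q f g then (1 : ℝ) else 0) := by
      simp only [h2]
      exact (Finset.sum_congr rfl fun f _ => Finset.sum_comm).trans Finset.sum_comm
    rw [h3]
    calc _ ≤ ∑ _q : (Fin t × Fin t) × (Fin t × Fin t), θ * Wt := by
          refine Finset.sum_le_sum fun q _ => ?_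
          by_cases hq : q.1 = q.2
          · have h4 : ∑ f ∈ P0, ∑ g ∈ P1,
                (if q.1 ≠ q.2 ∧ slE c G q f g then (1 : ℝ) else 0) = 0 := by
              refine Finset.sum_eq_zero fun f _ => Finset.sum_eq_zero fun g _ => ?_
              rw [if_neg (fun h => h.1 hq)]
            rw [h4]
            exact mul_nonneg hθ hWtpos.le
          · refine le_trans (Finset.sum_le_sum fun f _ => Finset.sum_le_sum fun g _ => ?_)
              (sl_three c W0 W1 G θ hx hy t q hq)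
            by_cases h5 : slE c G q f g
            · rw [if_pos ⟨hq, h5⟩, if_pos h5]
            · rw [if_neg (fun h => h5 h.2), if_neg h5]
      _ = θ * (t : ℝ) ^ 4 * Wt := by
          rw [Finset.sum_const, Finset.card_univ, Fintype.card_prod, Fintype.card_prod,
            Fintype.card_fin, nsmul_eq_mul]
          push_cast
          ring
  have hsum : ∑ f ∈ P0, ∑ g ∈ P1, ((slA G f g).card : ℝ) ≤ 2 * B * t * Wt +
      ∑ f ∈ P0, ∑ g ∈ P1, ((Finset.univ.filter
        (fun q : (Fin t × Fin t) × (Fin t × Fin t) => q.1 ≠ q.2 ∧ slE c G q f g)).card : ℝ) := by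
    have h6 : ∑ _f ∈ P0, ∑ _g ∈ P1, (2 * B * t : ℝ) = 2 * B * t * Wt := by
      rw [Finset.sum_const, Finset.sum_const, nsmul_eq_mul, nsmul_eq_mul, hc0, hc1]
      ring
    rw [← h6, ← Finset.sum_add_distrib]
    refine Finset.sum_le_sum fun f hf => ?_
    rw [← Finset.sum_add_distrib]
    exact Finset.sum_le_sum fun g hg => hpt f hf g hg
  have hfin : (η * (t : ℝ) ^ 2 - θ * (t : ℝ) ^ 4) * Wt ≤ 2 * B * t * Wt := by linarith
  exact le_of_mul_le_mul_right hfin hWtpos


end EG
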