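import Pool.Agent.EGFour.A1

set_option autoImplicit false
set_option linter.unusedSectionVars false

open Finset

namespace EG

/-- TARGET: prove this -/
theorem heavy {V C : Type} [DecidableEq V] [Fintype C] [DecidableEq C] (c : V → V → C)
    (hsym : ∀ x y, c x y = c y x) (B : ℕ) (Y : Finset V) (hY : Sparse c B Y) (h4 : 4 ≤ Y.card) :
    Y.card ≤ 2 * (Y.filter (fun y => ∃ k : C,
      (1 / (1024 * ((B : ℝ) + 1) ^ 2)) * Y.card ≤ (nb c Y k y).card)).card := by
  classical
  by_contra hcon
  push Not at hcon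
  have hB0 : (0:ℝ) ≤ (B:ℝ) := Nat.cast_nonneg B
  have hB1 : (0:ℝ) < (B:ℝ) + 1 := by linarith
  obtain ⟨p, hp⟩ : ∃ p : ℝ, p = 1 / (1024 * ((B : ℝ) + 1) ^ 2) := ⟨_, rfl⟩
  rw [← hp] at hcon
  have hp0 : 0 < p := by rw [hp]; positivity
  obtain ⟨L, hL⟩ : ∃ L, L = Y.filter (fun y => ¬ ∃ k : C, p * Y.card ≤ (nb c Y k y).card) :=
    ⟨_, rfl⟩
  have hcard : (Y.filter (fun y => ∃ k : C, p * Y.card ≤ (nb c Y k y).card)).card + L.card =
      Y.card := by
    rw [hL]
    exact Finset.card_filter_add_card_filter_not _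
  have hL2 : Y.card < 2 * L.card := by omega
  have hL3 : 2 ≤ L.card := by omega
  have hLY : L ⊆ Y := by rw [hL]; exact Finset.filter_subset _ _
  have hLne : L.Nonempty := by rw [← Finset.card_pos]; omega
  have hlight : ∀ x ∈ L, ∀ k : C, ((nb c Y k x).card : ℝ) ≤ 2 * p * L.card := by
    intro x hx k
    rw [hL, Finset.mem_filter] at hx
    have h1 := hx.2
    push Not at h1
    have h2 := h1 k
    have h3 : (Y.card : ℝ) ≤ 2 * L.card := by exact_mod_cast hL2.le
    have h4 : p * Y.card ≤ p * (2 * L.card) := mul_le_mul_of_nonneg_left h3 hp0.le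
    linarith
  have key := sample_lemma c B Y hY L L hLY hLY hLne hLne L.offDiag
    (by
      intro q hq
      rw [Finset.mem_offDiag] at hq
      rw [Finset.mem_product]
      exact ⟨hq.1, hq.2.1⟩)
    (by
      intro q hq
      rw [Finset.mem_offDiag] at hq
      exact hq.2.2)
    (1/2) (2 * p)
    (by
      rw [Finset.offDiag_card]
      have h1 : L.card ≤ L.card * L.card := Nat.le_mul_self _
      rw [Nat.cast_sub h1]
      push_cast
      have h2 : (2:ℝ) ≤ L.card := by exact_mod_cast hL3
      nlinarith)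
    (by
      intro x hx k
      refine le_trans ?_ (hlight x hx k)
      have : (L.filter (fun y => (x, y) ∈ L.offDiag ∧ c x y = k)) ⊆ nb c Y k x := by
        intro y hy
        rw [Finset.mem_filter] at hy
        unfold nb
        rw [Finset.mem_filter]
        have h1 := hy.2.1
        rw [Finset.mem_offDiag] at h1
        exact ⟨hLY hy.1, h1.2.2.symm, hy.2.2⟩
      exact_mod_cast Finset.card_le_card this)
    (by
      intro y hy k
      refine le_trans ?_ (hlight y hy k)
      have : (L.filter (fun x => (x, y) ∈ L.offDiag ∧ c x y = k)) ⊆ nb c Y k y := by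
        intro x hx
        rw [Finset.mem_filter] at hx
        unfold nb
        rw [Finset.mem_filter]
        have h1 := hx.2.1
        rw [Finset.mem_offDiag] at h1
        exact ⟨hLY hx.1, h1.2.2, by rw [hsym]; exact hx.2.2⟩
      exact_mod_cast Finset.card_le_card this)
    (8 * (B + 1))
  push_cast at key
  have e : 2 * p * (8 * ((B:ℝ) + 1)) ^ 4 = 8 * ((B:ℝ) + 1) ^ 2 := by
    rw [hp]
    field_simp
    ring
  rw [e] at key
  nlinarith


end EG
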