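import Pool.Agent.EGFour.A2

set_option autoImplicit false
set_option linter.unusedSectionVars false

open Finset

namespace EG

/-- TARGET: prove this -/
theorem drc {V : Type} [DecidableEq V] (X Φ : Finset V) (hΦ : Φ ⊆ X) (N : V → Finset V)
    (hN : ∀ y ∈ Φ, N y ⊆ X) (p q : ℝ) (hp : 0 ≤ p) (hq : 0 < q) (R : ℕ)
    (hdeg : ∀ y ∈ Φ, p * X.card ≤ (N y).card)
    (hqR : 2 * (X.card : ℝ) ^ 2 * q ^ R ≤ 1) (hbig : 1 < (Φ.card : ℝ) * p ^ R) :
    ∃ X1 ⊆ Φ, (Φ.card : ℝ) * p ^ R - 1 ≤ X1.card ∧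
      ∀ T ⊆ X1, T.Nonempty → q ^ T.card * X.card ≤ ((X.filter (fun z => ∀ y ∈ T, z ∈ N y)).card : ℝ) := by
  classical
  have hΦ0 : 0 < Φ.card := by
    rcases Nat.eq_zero_or_pos Φ.card with h | h
    · rw [h] at hbig; norm_num at hbig
    · exact h
  have hm0 : 0 < X.card := hΦ0.trans_le (card_le_card hΦ)
  have hm1 : (1:ℝ) ≤ (X.card:ℝ) := by exact_mod_cast hm0
  have hnm : (Φ.card : ℝ) ≤ (X.card : ℝ) := by exact_mod_cast card_le_card hΦ
  set m : ℝ := (X.card : ℝ) with hm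
  set n : ℕ := Φ.card with hn
  let P : Finset (Fin R → V) := Fintype.piFinset (fun _ : Fin R => X)
  have hPcard : (P.card : ℝ) = m ^ R := by
    show (((Fintype.piFinset (fun _ : Fin R => X)).card : ℕ) : ℝ) = m ^ R
    rw [Fintype.card_piFinset_const]
    push_cast
    rfl
  have hmemP : ∀ z, z ∈ P ↔ ∀ i, z i ∈ X := fun z => Fintype.mem_piFinset
  let X1 : (Fin R → V) → Finset V := fun z => Φ.filter (fun y => ∀ i, z i ∈ N y)
  let NT : Finset V → Finset V := fun T => X.filter (fun z => ∀ y ∈ T, z ∈ N y)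
  let Bad : Finset (Finset V) := Φ.powerset.filter
    (fun T => T.Nonempty ∧ ((NT T).card : ℝ) < q ^ T.card * m)
  let bad : (Fin R → V) → ℕ := fun z => (Bad.filter (fun T => T ⊆ X1 z)).card
  -- first sum
  have S1 : (n : ℝ) * (p * m) ^ R ≤ ∑ z ∈ P, ((X1 z).card : ℝ) := by
    have e1 : ∑ z ∈ P, (X1 z).card = ∑ y ∈ Φ, (P.filter (fun z => ∀ i, z i ∈ N y)).card :=
      Finset.sum_card_bipartiteAbove_eq_sum_card_bipartiteBelow
        (fun (z : Fin R → V) (y : V) => ∀ i, z i ∈ N y)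
    have e2 : ∀ y ∈ Φ, (P.filter (fun z => ∀ i, z i ∈ N y)).card = (N y).card ^ R := by
      intro y hy
      have : P.filter (fun z => ∀ i, z i ∈ N y) = Fintype.piFinset (fun _ : Fin R => N y) := by
        ext z
        rw [mem_filter, hmemP, Fintype.mem_piFinset]
        exact ⟨fun h => h.2, fun h => ⟨fun i => hN y hy (h i), h⟩⟩
      rw [this, Fintype.card_piFinset_const]
    rw [← Nat.cast_sum, e1, Finset.sum_congr rfl e2]
    push_cast
    calc (n:ℝ) * (p * m) ^ R = ∑ y ∈ Φ, (p * m) ^ R := by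
          rw [Finset.sum_const, nsmul_eq_mul]
      _ ≤ ∑ y ∈ Φ, ((N y).card : ℝ) ^ R := by
          refine Finset.sum_le_sum fun y hy => ?_
          exact pow_le_pow_left₀ (mul_nonneg hp (by linarith)) (hdeg y hy) R
  -- second sum
  set u : ℝ := q ^ R with hu
  have hu0 : 0 < u := pow_pos hq R
  have hmu : 2 * m ^ 2 * u ≤ 1 := hqR
  have hnu : 2 * (n:ℝ) * u * m ≤ 1 := by
    calc 2 * (n:ℝ) * u * m ≤ 2 * m * u * m := by gcongr
      _ = 2 * m ^ 2 * u := by ring
      _ ≤ 1 := hmu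
  have hnu1 : 2 * (n:ℝ) * u ≤ 1 := by
    have h0 : 0 ≤ 2 * (n:ℝ) * u := by positivity
    calc 2 * (n:ℝ) * u ≤ 2 * (n:ℝ) * u * m := le_mul_of_one_le_right h0 hm1
      _ ≤ 1 := hnu
  have hind : ∀ k : ℕ, k ≤ n → (1 + u) ^ k ≤ 1 + 2 * k * u := by
    intro k
    induction k with
    | zero => intro _; simp
    | succ k ih =>
      intro hk
      have h1 := ih (by omega)
      have hkn : (k:ℝ) ≤ n := by exact_mod_cast (by omega : k ≤ n)
      have h2 : 2 * (k:ℝ) * u ≤ 1 := by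
        calc 2 * (k:ℝ) * u ≤ 2 * (n:ℝ) * u := by gcongr
          _ ≤ 1 := hnu1
      rw [pow_succ]
      calc (1 + u) ^ k * (1 + u) ≤ (1 + 2 * k * u) * (1 + u) := by gcongr
        _ = 1 + 2 * k * u + u + (2 * k * u) * u := by ring
        _ ≤ 1 + 2 * k * u + u + 1 * u := by gcongr
        _ = 1 + 2 * ((k + 1 : ℕ) : ℝ) * u := by push_cast; ring
  have S2 : m * ∑ z ∈ P, (bad z : ℝ) ≤ m ^ R := by
    have e1 : ∑ z ∈ P, bad z = ∑ T ∈ Bad, (P.filter (fun z => T ⊆ X1 z)).card :=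
      Finset.sum_card_bipartiteAbove_eq_sum_card_bipartiteBelow
        (fun (z : Fin R → V) (T : Finset V) => T ⊆ X1 z)
    have e2 : ∀ T ∈ Bad, (P.filter (fun z => T ⊆ X1 z)).card = (NT T).card ^ R := by
      intro T hT
      have hTΦ : T ⊆ Φ := mem_powerset.1 (mem_filter.1 hT).1
      have : P.filter (fun z => T ⊆ X1 z) = Fintype.piFinset (fun _ : Fin R => NT T) := by
        ext z
        rw [mem_filter, hmemP, Fintype.mem_piFinset]
        constructor
        · rintro ⟨h1, h2⟩ i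
          exact mem_filter.2 ⟨h1 i, fun y hy => (mem_filter.1 (h2 hy)).2 i⟩
        · intro h
          refine ⟨fun i => (mem_filter.1 (h i)).1, fun y hy => ?_⟩
          exact mem_filter.2 ⟨hTΦ hy, fun i => (mem_filter.1 (h i)).2 y hy⟩
      rw [this, Fintype.card_piFinset_const]
    have e3 : ∑ z ∈ P, (bad z : ℝ) = ∑ T ∈ Bad, ((NT T).card : ℝ) ^ R := by
      rw [← Nat.cast_sum, e1, Finset.sum_congr rfl e2]
      push_cast
      rfl
    have e4 : ∑ T ∈ Bad, ((NT T).card : ℝ) ^ R ≤ ∑ T ∈ Bad, m ^ R * u ^ T.card := by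
      refine Finset.sum_le_sum fun T hT => ?_
      have h1 := (mem_filter.1 hT).2.2
      calc ((NT T).card : ℝ) ^ R ≤ (q ^ T.card * m) ^ R :=
            pow_le_pow_left₀ (by positivity) h1.le R
        _ = m ^ R * u ^ T.card := by
            rw [hu, mul_pow, ← pow_mul, ← pow_mul, mul_comm T.card R, mul_comm]
    have e5 : ∑ T ∈ Bad, m ^ R * u ^ T.card ≤ ∑ T ∈ Φ.powerset.erase ∅, m ^ R * u ^ T.card := by
      refine Finset.sum_le_sum_of_subset_of_nonneg ?_ (fun T _ _ => by positivity)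
      intro T hT
      have h1 := mem_filter.1 hT
      exact mem_erase.2 ⟨h1.2.1.ne_empty, h1.1⟩
    have e6 : ∑ T ∈ Φ.powerset, u ^ T.card = (1 + u) ^ n := by
      have := Finset.sum_pow_mul_eq_add_pow u 1 Φ
      simp only [one_pow, mul_one] at this
      rw [this, add_comm, hn]
    have e7 : ∑ T ∈ Φ.powerset.erase ∅, u ^ T.card = (1 + u) ^ n - 1 := by
      have h1 := Finset.sum_erase_add Φ.powerset (fun T => u ^ T.card) (empty_mem_powerset Φ)
      rw [e6] at h1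
      simp only [card_empty, pow_zero] at h1
      linarith
    have e8 : (1 + u) ^ n - 1 ≤ 2 * n * u := by
      have := hind n le_rfl
      linarith
    have hmR : 0 < m ^ R := by positivity
    calc m * ∑ z ∈ P, (bad z : ℝ) ≤ m * ∑ T ∈ Φ.powerset.erase ∅, m ^ R * u ^ T.card := by
          rw [e3]
          exact mul_le_mul_of_nonneg_left (e4.trans e5) (by linarith)
      _ = m ^ R * (m * ((1 + u) ^ n - 1)) := by
          rw [← Finset.mul_sum, e7]; ring
      _ ≤ m ^ R * (m * (2 * n * u)) := by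
          refine mul_le_mul_of_nonneg_left ?_ hmR.le
          exact mul_le_mul_of_nonneg_left e8 (by linarith)
      _ = m ^ R * (2 * (n:ℝ) * u * m) := by ring
      _ ≤ m ^ R * 1 := mul_le_mul_of_nonneg_left hnu hmR.le
      _ = m ^ R := mul_one _
  have hPne : P.Nonempty := by
    rw [← card_pos]
    have : (0:ℝ) < (P.card : ℝ) := by rw [hPcard]; positivity
    exact_mod_cast this
  have hsum : ∑ z ∈ P, ((n:ℝ) * p ^ R - 1) ≤ ∑ z ∈ P, (((X1 z).card : ℝ) - m * (bad z : ℝ)) := by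
    have hL : ∑ z ∈ P, ((n:ℝ) * p ^ R - 1) = (n:ℝ) * (p * m) ^ R - m ^ R := by
      rw [Finset.sum_const, nsmul_eq_mul, hPcard, mul_pow]; ring
    have hRr : ∑ z ∈ P, (((X1 z).card : ℝ) - m * (bad z : ℝ)) =
        ∑ z ∈ P, ((X1 z).card : ℝ) - m * ∑ z ∈ P, (bad z : ℝ) := by
      rw [Finset.mul_sum, ← Finset.sum_sub_distrib]
    rw [hL, hRr]
    linarith
  obtain ⟨z, hz, hzle⟩ := Finset.exists_le_of_sum_le hPne hsum
  have hX1le : ((X1 z).card : ℝ) ≤ m := by
    have : (X1 z).card ≤ X.card := card_le_card ((filter_subset _ _).trans hΦ)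
    rw [hm]
    exact Nat.cast_le.2 this
  have hbad0 : bad z = 0 := by
    by_contra hne
    have h1 : (1:ℝ) ≤ (bad z : ℝ) := by exact_mod_cast Nat.one_le_iff_ne_zero.2 hne
    have h2 : m * 1 ≤ m * (bad z : ℝ) := mul_le_mul_of_nonneg_left h1 (by linarith)
    linarith
  refine ⟨X1 z, filter_subset _ _, ?_, ?_⟩
  · rw [hbad0] at hzle
    simpa using hzle
  · intro T hT hTne
    by_contra hcon
    rw [not_le] at hcon
    have hmem : T ∈ Bad.filter (fun T => T ⊆ X1 z) := by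
      refine mem_filter.2 ⟨mem_filter.2 ⟨mem_powerset.2 (hT.trans (filter_subset _ _)), hTne, hcon⟩, hT⟩
    have : 0 < bad z := card_pos.2 ⟨T, hmem⟩
    omega


end EG
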