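import Pool.Agent.EGFour.A3

set_option autoImplicit false
set_option linter.unusedSectionVars false

open Finset

namespace EG

/-- TARGET: prove this -/
theorem sparsify {V C : Type} [DecidableEq V] [DecidableEq C] (c : V → V → C)
    (hc : Good c) (a : ℝ) (ha : 0 < a) (X : Finset V) (hX : PMax a c X) (k : C) (q : ℝ)
    (hq : 0 < q) (B : ℕ) (hB : Real.log (1 / q) ≤ a * B) (X1 : Finset V) (hX1 : X1 ⊆ X)
    (h : ∀ T ⊆ X1, T.Nonempty →
      q ^ T.card * X.card ≤ ((X.filter (fun z => ∀ y ∈ T, z ∈ nb c X k y)).card : ℝ)) :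
    Sparse c B X1 := by
  intro T hT
  rcases T.eq_empty_or_nonempty with rfl | hTn
  · simp [cols]
  · obtain ⟨U, hUdef⟩ : ∃ U, U = X.filter (fun z => ∀ y ∈ T, z ∈ nb c X k y) := ⟨_, rfl⟩
    have hU := h T hT hTn
    rw [← hUdef] at hU
    have hXpos : 0 < (X.card : ℝ) := by exact_mod_cast card_pos.mpr hX.1
    have hqX : 0 < q ^ T.card * (X.card : ℝ) := by positivity
    have hUpos : 0 < (U.card : ℝ) := lt_of_lt_of_le hqX hU
    have hUX : U ⊆ X := by rw [hUdef]; exact filter_subset _ _
    have hUn : U.Nonempty := card_pos.mp (by exact_mod_cast hUpos)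
    have hnb : ∀ t ∈ T, ∀ u ∈ U, u ≠ t ∧ c t u = k := by
      intro t ht u hu
      rw [hUdef] at hu
      have h1 := (mem_filter.1 hu).2 t ht
      exact (mem_filter.1 h1).2
    have hdisj : Disjoint (cols c T) (cols c U) := by
      rw [Finset.disjoint_left]
      intro col h1 h2
      obtain ⟨⟨t, t'⟩, ht, hct⟩ := mem_image.1 h1
      obtain ⟨⟨u, u'⟩, hu, hcu⟩ := mem_image.1 h2
      rw [mem_offDiag] at ht hu
      exact hc.2 k t t' u u' ht.2.2 hu.2.2 (hnb t ht.1 u hu.1).1.symm
        (hnb t ht.1 u' hu.2.1).1.symm (hnb t' ht.2.1 u hu.1).1.symm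
        (hnb t' ht.2.1 u' hu.2.1).1.symm (hnb t ht.1 u hu.1).2
        (hnb t ht.1 u' hu.2.1).2 (hnb t' ht.2.1 u hu.1).2
        (hnb t' ht.2.1 u' hu.2.1).2 (hct.trans hcu.symm)
    have hmono : ∀ S ⊆ X, cols c S ⊆ cols c X := by
      intro S hS
      exact image_subset_image (offDiag_mono hS)
    have hcard : (cols c T).card + (cols c U).card ≤ (cols c X).card := by
      rw [← card_union_of_disjoint hdisj]
      exact card_le_card (union_subset (hmono T (hT.trans hX1)) (hmono U hUX))
    have hcard' : ((cols c T).card : ℝ) + (cols c U).card ≤ (cols c X).card := by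
      exact_mod_cast hcard
    have hmax := hX.2 U hUX hUn
    unfold Psi at hmax
    have hlog : T.card * Real.log q + Real.log X.card ≤ Real.log U.card := by
      rw [← Real.log_pow, ← Real.log_mul (by positivity) hXpos.ne']
      exact Real.log_le_log hqX hU
    have hB' : -Real.log q ≤ a * B := by rwa [one_div, Real.log_inv] at hB
    have h3 := mul_le_mul_of_nonneg_left hB' (by positivity : (0 : ℝ) ≤ T.card)
    have h4 := mul_le_mul_of_nonneg_left hcard' ha.le
    have h5 : a * ((cols c T).card : ℝ) ≤ a * ((B * T.card : ℕ) : ℝ) := by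
      push_cast
      linarith
    exact_mod_cast le_of_mul_le_mul_left h5 ha


end EG
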