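import Pool.Agent.EGFour.M1

set_option autoImplicit false
set_option linter.unusedSectionVars false

open Finset

namespace EG

theorem one_step_pigeon {V : Type} [DecidableEq V] {s : ℕ} (X Hv : Finset V)
    (Φ : Fin s → Finset V) (hHv : ∀ y ∈ Hv, ∃ k, y ∈ Φ k) (hX : X.card ≤ 2 * Hv.card)
    (h0 : 0 < X.card) : 0 < s ∧ ∃ k, X.card ≤ 2 * s * (Φ k).card := by
  have h1 : Hv.card ≤ ∑ k : Fin s, (Φ k).card := by
    refine (Finset.card_le_card (t := Finset.univ.biUnion Φ) ?_).trans Finset.card_biUnion_le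
    intro y hy
    obtain ⟨k, hk⟩ := hHv y hy
    exact Finset.mem_biUnion.2 ⟨k, Finset.mem_univ k, hk⟩
  have hs : 0 < s := by
    rcases Nat.eq_zero_or_pos s with hs | hs
    · subst hs
      simp at h1
      rw [h1] at hX
      simp at hX
      rw [hX] at h0
      simp at h0
    · exact hs
  refine ⟨hs, ?_⟩
  by_contra hcon
  push Not at hcon
  have hne : (Finset.univ : Finset (Fin s)).Nonempty := ⟨⟨0, hs⟩, Finset.mem_univ _⟩
  have h2 := Finset.sum_lt_sum_of_nonempty hne (fun k _ => hcon k)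
  rw [← Finset.mul_sum, Finset.sum_const, Finset.card_univ, Fintype.card_fin, smul_eq_mul] at h2
  have h3 : 2 * (∑ k : Fin s, (Φ k).card) < X.card := by
    have h4 : s * (2 * ∑ k : Fin s, (Φ k).card) < s * X.card := by
      calc s * (2 * ∑ k : Fin s, (Φ k).card) = 2 * s * ∑ k : Fin s, (Φ k).card := by ring
        _ < s * X.card := h2
    exact Nat.lt_of_mul_lt_mul_left h4
  omega

theorem one_step_mem_filter {V : Type} {p : V → Prop} (inst : DecidablePred p) (X : Finset V)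
    (y : V) (hy : y ∈ @Finset.filter V p inst X) : y ∈ X ∧ p y := Finset.mem_filter.1 hy

theorem one_step_floor (y : ℝ) (hy : 1 ≤ y) : 1 ≤ ⌊y⌋₊ ∧ (⌊y⌋₊ : ℝ) ≤ y ∧ y / 2 ≤ (⌊y⌋₊ : ℝ) := by
  have h1 : 1 ≤ ⌊y⌋₊ := Nat.le_floor (by simpa using hy)
  have h2 : (⌊y⌋₊ : ℝ) ≤ y := Nat.floor_le (by linarith)
  have h3 : y < (⌊y⌋₊ : ℝ) + 1 := Nat.lt_floor_add_one y
  have h4 : (1 : ℝ) ≤ (⌊y⌋₊ : ℝ) := by exact_mod_cast h1
  refine ⟨h1, h2, ?_⟩
  linarith

/-- TARGET: prove this -/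
theorem one_step {V : Type} [DecidableEq V] {s : ℕ} (c : V → V → Fin s)
    (hc : Good c) (a : ℝ) (ha : 0 < a) (B B' : ℕ) (δ : ℝ) (hδ : 0 < δ) (hδ1 : δ ≤ 1)
    (X : Finset V) (hX : PMax a c X) (hB : Sparse c B X) (h4 : 4 ≤ X.card)
    (hs : Real.log (4 * s) ≤ δ * Real.log X.card / 2)
    (hh : Real.log (1024 * ((B : ℝ) + 1) ^ 2) ≤ δ * Real.log X.card / 2)
    (hB' : 12 * Real.log (1024 * ((B : ℝ) + 1) ^ 2) ≤ δ * (a * B')) :
    ∃ X' : Finset V, PMax a c X' ∧ Sparse c B' X' ∧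
      Psi a c X - δ * Real.log X.card ≤ Psi a c X' := by
  set x := Real.log X.card with hx
  set h := Real.log (1024 * ((B : ℝ) + 1) ^ 2) with hh0
  have hXpos : (0 : ℝ) < X.card := by
    have : 0 < X.card := by omega
    exact_mod_cast this
  have hX4 : (4 : ℝ) ≤ X.card := by exact_mod_cast h4
  have hexpx : Real.exp x = X.card := Real.exp_log hXpos
  have hlog2 : 0 < Real.log 2 := Real.log_pos (by norm_num)
  have hxl : 2 * Real.log 2 ≤ x := by
    have h5 : Real.log 4 ≤ x := Real.log_le_log (by norm_num) hX4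
    have h6 : Real.log 4 = 2 * Real.log 2 := by
      rw [show (4 : ℝ) = 2 ^ 2 by norm_num, Real.log_pow]
      norm_num
    linarith
  have hx0 : 0 < x := by linarith
  have hu : (1024 : ℝ) ≤ 1024 * ((B : ℝ) + 1) ^ 2 := by
    have hB0 : (0 : ℝ) ≤ B := Nat.cast_nonneg B
    nlinarith [sq_nonneg (B : ℝ)]
  have hh1 : 0 < h := Real.log_pos (by linarith)
  have hupos : (0 : ℝ) < 1024 * ((B : ℝ) + 1) ^ 2 := by linarith
  set p : ℝ := 1 / (1024 * ((B : ℝ) + 1) ^ 2) with hp
  have hpexp : p = Real.exp (-h) := by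
    rw [Real.exp_neg, hh0, Real.exp_log hupos, hp, one_div]
  have hp0 : 0 < p := by rw [hpexp]; exact Real.exp_pos _
  -- Step 1
  have hheavy := heavy c hc.1 B X hB h4
  obtain ⟨hs0, k, hk⟩ := one_step_pigeon X _
    (fun k => X.filter (fun y => p * X.card ≤ (nb c X k y).card)) (by
      intro y hy
      obtain ⟨hyX, k, hk⟩ := one_step_mem_filter _ X y hy
      exact ⟨k, Finset.mem_filter.2 ⟨hyX, hk⟩⟩) hheavy (by omega)
  set Φ := X.filter (fun y => p * X.card ≤ (nb c X k y).card) with hΦ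
  have hΦX : Φ ⊆ X := Finset.filter_subset _ _
  have hsR : (0 : ℝ) < s := by exact_mod_cast hs0
  have hkR : (X.card : ℝ) ≤ 2 * s * Φ.card := by exact_mod_cast hk
  -- Step 2
  have hy1 : 1 ≤ δ * x / (2 * h) := by
    rw [le_div_iff₀ (by positivity)]
    linarith
  obtain ⟨hR1, hR2, hR3⟩ := one_step_floor _ hy1
  set R := ⌊δ * x / (2 * h)⌋₊ with hR
  have hRpos : (0 : ℝ) < R := by exact_mod_cast hR1
  have hRh : (R : ℝ) * h ≤ δ * x / 2 := by
    have h5 := mul_le_mul_of_nonneg_right hR2 hh1.le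
    refine h5.trans (le_of_eq ?_)
    field_simp
  set q : ℝ := Real.exp (-(Real.log 2 + 2 * x) / R) with hq
  have hq0 : 0 < q := Real.exp_pos _
  have hqR : q ^ R = Real.exp (-(Real.log 2 + 2 * x)) := by
    rw [hq, ← Real.exp_nat_mul]
    congr 1
    field_simp
  have hqR1 : 2 * (X.card : ℝ) ^ 2 * q ^ R ≤ 1 := by
    have h5 : 2 * (X.card : ℝ) ^ 2 = Real.exp (Real.log 2 + 2 * x) := by
      rw [Real.exp_add, Real.exp_log (by norm_num), two_mul x, Real.exp_add, hexpx]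
      ring
    rw [h5, hqR, ← Real.exp_add, add_neg_cancel, Real.exp_zero]
  have hlogq : Real.log (1 / q) ≤ a * B' := by
    rw [one_div, Real.log_inv, hq, Real.log_exp, neg_div, neg_neg, div_le_iff₀ hRpos]
    have h5 : 12 * h / δ ≤ a * B' := by
      rw [div_le_iff₀ hδ]
      linarith
    have h6 : 12 * h / δ * (δ * x / (2 * h) / 2) ≤ a * B' * R :=
      mul_le_mul h5 hR3 (by positivity) (le_trans (by positivity) h5)
    have h7 : 12 * h / δ * (δ * x / (2 * h) / 2) = 3 * x := by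
      field_simp
      ring
    linarith
  -- Step 3
  have h4s : 4 * (s : ℝ) ≤ Real.exp (δ * x / 2) := by
    rw [← Real.log_le_iff_le_exp (by positivity)]
    exact hs
  have hpR : Real.exp (-(δ * x / 2)) ≤ p ^ R := by
    rw [hpexp, ← Real.exp_nat_mul]
    apply Real.exp_le_exp.mpr
    linarith
  have hbig0 : 2 * Real.exp (x - δ * x) ≤ (Φ.card : ℝ) * p ^ R := by
    have h5 : Real.exp x / (2 * s) ≤ Φ.card := by
      rw [div_le_iff₀ (by positivity), hexpx]
      linarith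
    have h6 : Real.exp x / (2 * s) * Real.exp (-(δ * x / 2)) ≤ Φ.card * p ^ R :=
      mul_le_mul h5 hpR (Real.exp_pos _).le (Nat.cast_nonneg _)
    refine le_trans ?_ h6
    rw [div_mul_eq_mul_div, le_div_iff₀ (by positivity), ← Real.exp_add]
    have h7 : 2 * Real.exp (x - δ * x) * (2 * s) = Real.exp (x - δ * x) * (4 * s) := by ring
    rw [h7]
    have h8 : Real.exp (x - δ * x) * (4 * s) ≤ Real.exp (x - δ * x) * Real.exp (δ * x / 2) :=
      mul_le_mul_of_nonneg_left h4s (Real.exp_pos _).le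
    refine h8.trans (le_of_eq ?_)
    rw [← Real.exp_add]
    congr 1
    ring
  have hδx : 0 ≤ x - δ * x := by nlinarith
  have hone : 1 ≤ Real.exp (x - δ * x) := Real.one_le_exp hδx
  have hbig : 1 < (Φ.card : ℝ) * p ^ R := by linarith
  obtain ⟨X1, hX1Φ, hX1c, hX1T⟩ := drc X Φ hΦX (fun y => nb c X k y)
    (fun y _ => Finset.filter_subset _ _) p q hp0.le hq0 R
    (fun y hy => (Finset.mem_filter.1 hy).2) hqR1 hbig
  have hX1X : X1 ⊆ X := hX1Φ.trans hΦX
  have hX1e : Real.exp (x - δ * x) ≤ X1.card := by linarith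
  have hX1pos : (0 : ℝ) < X1.card := lt_of_lt_of_le (Real.exp_pos _) hX1e
  have hX1ne : X1.Nonempty := by
    rw [← Finset.card_pos]
    exact_mod_cast hX1pos
  have hX1log : x - δ * x ≤ Real.log X1.card := (Real.le_log_iff_exp_le hX1pos).mpr hX1e
  -- Step 4
  have hsp : Sparse c B' X1 := sparsify c hc a ha X hX k q hq0 B' hlogq X1 hX1X hX1T
  -- Step 5
  obtain ⟨X', hX'1, hX'P, hX'Psi⟩ := exists_pmax c a X1 hX1ne
  refine ⟨X', hX'P, fun T hT => hsp T (hT.trans hX'1), le_trans ?_ hX'Psi⟩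
  have hcols : (cols c X1).card ≤ (cols c X).card := by
    apply Finset.card_le_card
    unfold cols
    exact Finset.image_subset_image (Finset.offDiag_mono hX1X)
  have hcolsR : ((cols c X1).card : ℝ) ≤ (cols c X).card := by exact_mod_cast hcols
  have hcm := mul_le_mul_of_nonneg_left hcolsR ha.le
  unfold Psi
  linarith


end EG
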