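import Pool.Agent.EGFour.A6

set_option autoImplicit false
set_option linter.unusedSectionVars false

open Finset

namespace EG

theorem pI_asym (α : ℝ) (hα : 0 < α) : ∃ s0 : ℕ, ∀ s : ℕ, s0 ≤ s →
    Real.log (1024 * (4 * (s : ℝ) + 1) ^ 2) ≤ α * Real.sqrt s / 64 := by
  obtain ⟨C, hC⟩ : ∃ C : ℝ, C = Real.log 1024 + 2 * Real.log 5 := ⟨_, rfl⟩
  have hC0 : 0 ≤ C := by
    rw [hC]
    have h1 : 0 ≤ Real.log 1024 := Real.log_nonneg (by norm_num)
    have h2 : 0 ≤ Real.log 5 := Real.log_nonneg (by norm_num)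
    linarith
  obtain ⟨T, hT⟩ : ∃ T : ℝ, T = max 1 ((C + 8) * 64 / α) := ⟨_, rfl⟩
  have hT1 : 1 ≤ T := by rw [hT]; exact le_max_left _ _
  have hT2 : (C + 8) * 64 / α ≤ T := by rw [hT]; exact le_max_right _ _
  obtain ⟨s0, hs0⟩ := exists_nat_ge (T ^ 4)
  refine ⟨s0, fun s hs => ?_⟩
  have hs' : T ^ 4 ≤ (s : ℝ) := hs0.trans (by exact_mod_cast hs)
  have hs1 : (1 : ℝ) ≤ s := (one_le_pow₀ hT1).trans hs'
  have hT0 : 0 < T := by linarith
  obtain ⟨t, ht⟩ : ∃ t : ℝ, t = Real.sqrt (Real.sqrt s) := ⟨_, rfl⟩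
  have htT : T ≤ t := by
    rw [ht]
    rw [Real.le_sqrt' hT0, Real.le_sqrt' (by positivity)]
    have e : (T ^ 2) ^ 2 = T ^ 4 := by ring
    rw [e]
    exact hs'
  have ht0 : 0 < t := by linarith
  have hts : Real.sqrt s = t ^ 2 := by rw [ht, Real.sq_sqrt (Real.sqrt_nonneg _)]
  have hlog : Real.log s = 4 * Real.log t := by
    rw [ht, Real.log_sqrt (Real.sqrt_nonneg _), Real.log_sqrt (by linarith)]
    ring
  have hlt : Real.log t ≤ t := Real.log_le_self ht0.le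
  have h1 : Real.log (4 * (s : ℝ) + 1) ≤ Real.log 5 + Real.log s := by
    rw [← Real.log_mul (by norm_num) (by positivity)]
    exact Real.log_le_log (by positivity) (by linarith)
  have h2 : Real.log (1024 * (4 * (s : ℝ) + 1) ^ 2) =
      Real.log 1024 + 2 * Real.log (4 * (s : ℝ) + 1) := by
    rw [Real.log_mul (by norm_num) (by positivity), Real.log_pow]
    push_cast
    ring
  have h3 : Real.log (1024 * (4 * (s : ℝ) + 1) ^ 2) ≤ C + 8 * t := by
    rw [h2, hC]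
    linarith
  have h4 : (C + 8) * 64 ≤ T * α := by
    rwa [div_le_iff₀ hα] at hT2
  have h5 : T * α ≤ t * α := mul_le_mul_of_nonneg_right htT hα.le
  have h6 : (C + 8) * 64 * t ≤ t * α * t := mul_le_mul_of_nonneg_right (h4.trans h5) ht0.le
  have h7 : C * 1 ≤ C * t := mul_le_mul_of_nonneg_left (by linarith) hC0
  rw [hts]
  nlinarith

theorem pI_two_pow (j : ℕ) : (4 * j + 16 : ℝ) ≤ 22 * 2 ^ j := by
  have h : (j : ℝ) + 1 ≤ 2 ^ j := by
    have : j + 1 ≤ 2 ^ j := Nat.lt_two_pow_self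
    exact_mod_cast this
  have h0 : (0 : ℝ) ≤ j := Nat.cast_nonneg j
  linarith

theorem pI_log (j : ℕ) :
    12 * Real.log (1024 * (((4 ^ (j + 1) : ℕ) : ℝ) + 1) ^ 2) ≤ 264 * 2 ^ j := by
  have h1 : (1024 : ℝ) * (((4 ^ (j + 1) : ℕ) : ℝ) + 1) ^ 2 ≤ 2 ^ (4 * j + 16) := by
    have h2 : (1 : ℝ) ≤ 4 ^ (j + 1) := one_le_pow₀ (by norm_num)
    have e : (2 : ℝ) ^ (4 * j + 16) = 1024 * (2 * (4 : ℝ) ^ (j + 1)) ^ 2 := by
      have e4 : (4 : ℝ) ^ (j + 1) = 2 ^ (2 * (j + 1)) := by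
        rw [pow_mul]; norm_num
      have e5 : (1024 : ℝ) = 2 ^ 10 := by norm_num
      rw [e4, e5, mul_pow, ← pow_mul, ← pow_add, ← pow_add]
      congr 1
      ring
    push_cast
    rw [e]
    have h3 : ((4 : ℝ) ^ (j + 1) + 1) ^ 2 ≤ (2 * (4 : ℝ) ^ (j + 1)) ^ 2 :=
      pow_le_pow_left₀ (by positivity) (by linarith) 2
    linarith
  have h3 : Real.log (1024 * (((4 ^ (j + 1) : ℕ) : ℝ) + 1) ^ 2) ≤ 4 * j + 16 := by
    refine (Real.log_le_log (by positivity) h1).trans ?_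
    rw [Real.log_pow]
    push_cast
    have h4 : Real.log 2 ≤ 1 := by
      have := Real.log_two_lt_d9
      linarith
    have h5 : (0 : ℝ) ≤ 4 * j + 16 := by positivity
    calc (4 * (j : ℝ) + 16) * Real.log 2 ≤ (4 * j + 16) * 1 := mul_le_mul_of_nonneg_left h4 h5
      _ = _ := mul_one _
  have h6 := pI_two_pow j
  linarith

/-- TARGET: prove this -/
theorem partI (α : ℝ) (hα : 0 < α) : ∃ B s0 : ℕ, ∀ s : ℕ, s0 ≤ s → ∀ (V : Type) [Fintype V]
    [DecidableEq V] (c : V → V → Fin s), Good c → α * s ≤ Real.log (Fintype.card V) →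
    ∃ X : Finset V, Sparse c B X ∧ α * s / 4 ≤ Real.log X.card := by
  classical
  obtain ⟨j0, hj0⟩ : ∃ j0 : ℕ, 4224 / α ≤ 2 ^ j0 := by
    obtain ⟨n, hn⟩ := exists_nat_ge (4224 / α)
    refine ⟨n, hn.trans ?_⟩
    have : n ≤ 2 ^ n := Nat.lt_two_pow_self.le
    exact_mod_cast this
  have hj0' : 4224 ≤ 2 ^ j0 * α := by rwa [div_le_iff₀ hα] at hj0
  obtain ⟨s1, hs1⟩ := pI_asym α hα
  obtain ⟨s2, hs2⟩ := exists_nat_ge (Real.log 4 * 4 / α)
  refine ⟨4 ^ j0, max (s1 + 1) (max s2 (4 ^ j0 + 1)), ?_⟩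
  intro s hs V _ _ c hc hV
  have hsA : s1 + 1 ≤ s := (le_max_left _ _).trans hs
  have hsB : s2 ≤ s := (le_max_left _ _).trans ((le_max_right _ _).trans hs)
  have hasym := hs1 s (by omega)
  have hspos : (0 : ℝ) < s := by
    have : 0 < s := by omega
    exact_mod_cast this
  have h4s : Real.log 4 ≤ α * s / 4 := by
    have h1 : Real.log 4 * 4 / α ≤ s := hs2.trans (by exact_mod_cast hsB)
    rw [div_le_iff₀ hα] at h1
    linarith
  obtain ⟨w, hw⟩ : ∃ w, w = Real.log (Fintype.card V) := ⟨_, rfl⟩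
  rw [← hw] at hV
  have hαs : 0 < α * s := by positivity
  have hw0 : 0 < w := by linarith
  have hcardV : 0 < Fintype.card V := by
    rcases Nat.eq_zero_or_pos (Fintype.card V) with h0 | h0
    · rw [h0, Nat.cast_zero, Real.log_zero] at hw
      linarith
    · exact h0
  haveI : Nonempty V := Fintype.card_pos_iff.1 hcardV
  have hcols : ∀ X : Finset V, (cols c X).card ≤ s := by
    intro X
    have := Finset.card_le_univ (cols c X)
    rwa [Fintype.card_fin] at this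
  have hPsi_le : ∀ X : Finset V, Psi (α / 2) c X ≤ Real.log X.card := by
    intro X
    unfold Psi
    have : 0 ≤ α / 2 * ((cols c X).card : ℝ) := by positivity
    linarith
  have hlogw : ∀ X : Finset V, X.Nonempty → Real.log X.card ≤ w := by
    intro X hX
    rw [hw]
    refine Real.log_le_log ?_ ?_
    · exact_mod_cast hX.card_pos
    · exact_mod_cast Finset.card_le_univ X
  -- the height
  have hex : ∃ d : ℕ, s ≤ 4 ^ (j0 + d) := by
    refine ⟨s, ?_⟩
    have h1 : s < 4 ^ s := Nat.lt_pow_self (by norm_num)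
    have h2 : 4 ^ s ≤ 4 ^ (j0 + s) := Nat.pow_le_pow_right (by norm_num) (by omega)
    omega
  obtain ⟨d, hd, hdmin⟩ : ∃ d : ℕ, s ≤ 4 ^ (j0 + d) ∧ ∀ i < d, 4 ^ (j0 + i) < s := by
    refine ⟨Nat.find hex, Nat.find_spec hex, fun i hi => ?_⟩
    have := Nat.find_min hex hi
    omega
  have hbase : ∃ X : Finset V, PMax (α / 2) c X ∧ Sparse c (4 ^ (j0 + d)) X ∧
      (1 / 2 - 1 / (4 * 2 ^ d)) * w ≤ Psi (α / 2) c X := by
    obtain ⟨X, -, hX, hXP⟩ := exists_pmax c (α / 2) (Finset.univ : Finset V) Finset.univ_nonempty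
    refine ⟨X, hX, ?_, ?_⟩
    · intro T _
      rcases T.eq_empty_or_nonempty with rfl | hT
      · simp [cols]
      · calc (cols c T).card ≤ s := hcols T
          _ ≤ 4 ^ (j0 + d) * 1 := by rw [mul_one]; exact hd
          _ ≤ 4 ^ (j0 + d) * T.card := Nat.mul_le_mul_left _ hT.card_pos
    · refine le_trans ?_ hXP
      unfold Psi
      rw [Finset.card_univ, ← hw]
      have h1 : α / 2 * ((cols c (Finset.univ : Finset V)).card : ℝ) ≤ α / 2 * s :=
        mul_le_mul_of_nonneg_left (by exact_mod_cast hcols _) (by positivity)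
      have h2 : 0 ≤ 1 / (4 * (2 : ℝ) ^ d) * w := by positivity
      linarith
  have hstep : ∀ i < d, (∃ X : Finset V, PMax (α / 2) c X ∧ Sparse c (4 ^ (j0 + (i + 1))) X ∧
      (1 / 2 - 1 / (4 * 2 ^ (i + 1))) * w ≤ Psi (α / 2) c X) →
      ∃ X : Finset V, PMax (α / 2) c X ∧ Sparse c (4 ^ (j0 + i)) X ∧
      (1 / 2 - 1 / (4 * 2 ^ i)) * w ≤ Psi (α / 2) c X := by
    rintro i hi ⟨X, hX, hXS, hXP⟩
    obtain ⟨x, hx⟩ : ∃ x, x = Real.log X.card := ⟨_, rfl⟩
    have hxw : x ≤ w := by rw [hx]; exact hlogw X hX.1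
    have h2i : (1 : ℝ) ≤ 2 ^ i := one_le_pow₀ (by norm_num)
    have hPx : Psi (α / 2) c X ≤ x := by rw [hx]; exact hPsi_le X
    have hxlow : w / 4 ≤ x := by
      have h1 : 1 / (4 * (2 : ℝ) ^ (i + 1)) ≤ 1 / 4 := by
        apply one_div_le_one_div_of_le (by norm_num)
        rw [pow_succ]
        linarith
      have h2 : 1 / (4 * (2 : ℝ) ^ (i + 1)) * w ≤ 1 / 4 * w :=
        mul_le_mul_of_nonneg_right h1 hw0.le
      linarith
    have hx4 : 4 ≤ X.card := by
      have h1 : Real.log 4 ≤ Real.log X.card := by rw [← hx]; linarith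
      have h2 : (4 : ℝ) ≤ X.card := by
        rwa [Real.log_le_log_iff (by norm_num) (by exact_mod_cast hX.1.card_pos)] at h1
      exact_mod_cast h2
    -- sqrt
    have hlt := hdmin i hi
    have hsq : (2 : ℝ) ^ i ≤ Real.sqrt s := by
      apply Real.le_sqrt_of_sq_le
      have h1 : ((2 : ℝ) ^ i) ^ 2 = 4 ^ i := by
        rw [← pow_mul, mul_comm, pow_mul]; norm_num
      rw [h1]
      have h2 : 4 ^ i ≤ 4 ^ (j0 + i) := Nat.pow_le_pow_right (by norm_num) (by omega)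
      have h3 : 4 ^ i ≤ s := by omega
      exact_mod_cast h3
    have hsq0 : 0 < Real.sqrt s := Real.sqrt_pos.2 hspos
    have hδx : α * Real.sqrt s / 64 ≤ 1 / (8 * 2 ^ i) * x / 2 := by
      have h1 : 1 / (8 * Real.sqrt s) ≤ 1 / (8 * (2 : ℝ) ^ i) :=
        one_div_le_one_div_of_le (by positivity) (by linarith)
      have h2 : α * s / 4 ≤ x := by linarith
      have h3 : 1 / (8 * Real.sqrt s) * (α * s / 4) ≤ 1 / (8 * (2 : ℝ) ^ i) * x :=
        mul_le_mul h1 h2 (by positivity) (by positivity)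
      have h4 : 1 / (8 * Real.sqrt s) * (α * s / 4) = α * Real.sqrt s / 32 := by
        have h5 : (s : ℝ) = Real.sqrt s * Real.sqrt s := (Real.mul_self_sqrt hspos.le).symm
        rw [div_mul_div_comm, one_mul]
        rw [div_eq_div_iff (by positivity) (by norm_num)]
        conv_lhs => rw [h5]
        ring
      rw [h4] at h3
      linarith
    have hlogs : Real.log (4 * s) ≤ Real.log (1024 * (4 * (s : ℝ) + 1) ^ 2) := by
      refine Real.log_le_log (by positivity) ?_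
      nlinarith
    have hB4 : ((4 ^ (j0 + (i + 1)) : ℕ) : ℝ) ≤ 4 * s := by
      have h1 : 4 ^ (j0 + (i + 1)) = 4 * 4 ^ (j0 + i) := by rw [← add_assoc, pow_succ]; ring
      have h2 : 4 ^ (j0 + (i + 1)) ≤ 4 * s := by rw [h1]; omega
      exact_mod_cast h2
    have hlogB : Real.log (1024 * (((4 ^ (j0 + (i + 1)) : ℕ) : ℝ) + 1) ^ 2) ≤
        Real.log (1024 * (4 * (s : ℝ) + 1) ^ 2) := by
      refine Real.log_le_log (by positivity) ?_
      have h1 : ((((4 ^ (j0 + (i + 1)) : ℕ) : ℝ)) + 1) ^ 2 ≤ (4 * (s : ℝ) + 1) ^ 2 :=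
        pow_le_pow_left₀ (by positivity) (by linarith) 2
      linarith
    obtain ⟨X', hX', hS', hP'⟩ := one_step c hc (α / 2) (by positivity) (4 ^ (j0 + (i + 1)))
      (4 ^ (j0 + i)) (1 / (8 * 2 ^ i)) (by positivity) (by
        rw [div_le_one (by positivity)]
        linarith) X hX hXS hx4 (by rw [← hx]; linarith) (by rw [← hx]; linarith) (by
        have h1 := pI_log (j0 + i)
        refine h1.trans ?_
        have h2 : 1 / (8 * (2 : ℝ) ^ i) * (α / 2 * ((4 ^ (j0 + i) : ℕ) : ℝ)) =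
            (2 ^ j0 * α) * 2 ^ (j0 + i) / 16 := by
          have e4 : (4 : ℝ) ^ (j0 + i) = 2 ^ (j0 + i) * (2 ^ j0 * 2 ^ i) := by
            rw [← pow_add, ← mul_pow]; norm_num
          push_cast
          rw [e4]
          have : (2 : ℝ) ^ i ≠ 0 := by positivity
          field_simp
          ring
        rw [h2]
        have h3 : (0 : ℝ) < 2 ^ (j0 + i) := by positivity
        have h4 := mul_le_mul_of_nonneg_right hj0' h3.le
        linarith)
    refine ⟨X', hX', hS', ?_⟩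
    refine le_trans ?_ hP'
    rw [← hx]
    have h1 : 1 / (8 * (2 : ℝ) ^ i) * x ≤ 1 / (8 * 2 ^ i) * w :=
      mul_le_mul_of_nonneg_left hxw (by positivity)
    have h2 : 1 / (4 * (2 : ℝ) ^ (i + 1)) * w + 1 / (8 * 2 ^ i) * w = 1 / (4 * 2 ^ i) * w := by
      rw [pow_succ]
      field_simp
      ring
    linarith
  have hall : ∀ m, m ≤ d → ∃ X : Finset V, PMax (α / 2) c X ∧ Sparse c (4 ^ (j0 + (d - m))) X ∧
      (1 / 2 - 1 / (4 * 2 ^ (d - m))) * w ≤ Psi (α / 2) c X := by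
    intro m
    induction m with
    | zero => intro _; exact hbase
    | succ m ih =>
      intro hm
      have h1 := ih (by omega)
      have e : d - m = (d - (m + 1)) + 1 := by omega
      rw [e] at h1
      exact hstep (d - (m + 1)) (by omega) h1
  obtain ⟨X, hX, hXS, hXP⟩ := hall d le_rfl
  rw [Nat.sub_self, add_zero] at hXS
  rw [Nat.sub_self, pow_zero, mul_one] at hXP
  refine ⟨X, hXS, ?_⟩
  have h1 := hPsi_le X
  linarith


end EG
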