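import Pool.Agent.EGFour.A7

set_option autoImplicit false
set_option linter.unusedSectionVars false

open Finset

namespace EG

theorem dom_pigeon {V C : Type} [DecidableEq V] [Fintype C] [DecidableEq C] (Q : Finset C)
    (n w : ℕ) (Φ : C → Finset V) (LB : Finset V) (hs : 0 < Fintype.card C)
    (hLB : ∀ x ∈ LB, ∃ k, k ∉ Q ∧ x ∈ Φ k)
    (hΦ : ∀ k, k ∉ Q → 4 * n * Fintype.card C * (Φ k).card ≤ w) : 4 * n * LB.card ≤ w := by
  have h1 : LB ⊆ (univ.filter (fun k => k ∉ Q)).biUnion Φ := by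
    intro x hx
    obtain ⟨k, hk, hxk⟩ := hLB x hx
    exact mem_biUnion.2 ⟨k, mem_filter.2 ⟨mem_univ _, hk⟩, hxk⟩
  have h2 : LB.card ≤ ∑ k ∈ univ.filter (fun k => k ∉ Q), (Φ k).card :=
    (card_le_card h1).trans card_biUnion_le
  have h3 : ∑ k ∈ univ.filter (fun k => k ∉ Q), 4 * n * Fintype.card C * (Φ k).card ≤
      ∑ _k ∈ univ.filter (fun k => k ∉ Q), w :=
    sum_le_sum fun k hk => hΦ k (mem_filter.1 hk).2
  rw [← mul_sum, sum_const, smul_eq_mul] at h3
  have h4 : (univ.filter (fun k => k ∉ Q)).card ≤ Fintype.card C := card_le_univ _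
  apply Nat.le_of_mul_le_mul_left _ hs
  calc Fintype.card C * (4 * n * LB.card) = 4 * n * Fintype.card C * LB.card := by ring
    _ ≤ 4 * n * Fintype.card C * ∑ k ∈ univ.filter (fun k => k ∉ Q), (Φ k).card :=
        Nat.mul_le_mul_left _ h2
    _ ≤ (univ.filter (fun k => k ∉ Q)).card * w := h3
    _ ≤ Fintype.card C * w := Nat.mul_le_mul_right _ h4

theorem ecol_left {V C : Type} [DecidableEq V] [DecidableEq C] (c : V → V → C) (k : C)
    (W0 W1 : Finset V) :
    ecol c k W0 W1 = ∑ x ∈ W0, (W1.filter (fun y => c x y = k)).card := by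
  unfold ecol
  rw [card_filter, sum_product]
  refine sum_congr rfl fun x _ => ?_
  rw [card_filter]

theorem ecol_right {V C : Type} [DecidableEq V] [DecidableEq C] (c : V → V → C) (k : C)
    (W0 W1 : Finset V) :
    ecol c k W0 W1 = ∑ y ∈ W1, (W0.filter (fun x => c x y = k)).card := by
  unfold ecol
  rw [card_filter, sum_product_right]
  refine sum_congr rfl fun x _ => ?_
  rw [card_filter]

theorem dom_left {V C : Type} [DecidableEq V] [Fintype C] [DecidableEq C] (c : V → V → C)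
    (Z0 Z1 : Finset V) (n b e a l : ℕ) (hl : 4 * n * Fintype.card C ≤ 2 ^ l)
    (hale : a + l ≤ e) (W0 W1 : Finset V) (hW0 : SubC a W0 Z0) (hW1 : SubC a W1 Z1) (k : C)
    (hk : k ∉ HQ c e b Z0 Z1) :
    4 * n * Fintype.card C * (W0.filter (fun x => W1.card ≤
      2 ^ b * (W1.filter (fun y => c x y = k)).card)).card ≤ W0.card := by
  by_contra hc
  push Not at hc
  set Φ := W0.filter (fun x => W1.card ≤ 2 ^ b * (W1.filter (fun y => c x y = k)).card) with hΦ
  apply hk
  have h1 : SubC l Φ W0 :=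
    ⟨filter_subset _ _, hc.le.trans (Nat.mul_le_mul_right _ hl)⟩
  have h2 : SubC e Φ Z0 := (h1.trans hW0).mono (by omega)
  have h3 : SubC e W1 Z1 := hW1.mono (by omega)
  classical
  unfold HQ
  rw [mem_filter]
  refine ⟨mem_univ _, Φ, W1, h2, h3, ?_⟩
  rw [ecol_left, mul_sum, ← smul_eq_mul, ← sum_const]
  exact sum_le_sum fun x hx => (mem_filter.1 hx).2

theorem dom_right {V C : Type} [DecidableEq V] [Fintype C] [DecidableEq C] (c : V → V → C)
    (Z0 Z1 : Finset V) (n b e a l : ℕ) (hl : 4 * n * Fintype.card C ≤ 2 ^ l)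
    (hale : a + l ≤ e) (W0 W1 : Finset V) (hW0 : SubC a W0 Z0) (hW1 : SubC a W1 Z1) (k : C)
    (hk : k ∉ HQ c e b Z0 Z1) :
    4 * n * Fintype.card C * (W1.filter (fun y => W0.card ≤
      2 ^ b * (W0.filter (fun x => c x y = k)).card)).card ≤ W1.card := by
  by_contra hc
  push Not at hc
  set Φ := W1.filter (fun y => W0.card ≤ 2 ^ b * (W0.filter (fun x => c x y = k)).card) with hΦ
  apply hk
  have h1 : SubC l Φ W1 :=
    ⟨filter_subset _ _, hc.le.trans (Nat.mul_le_mul_right _ hl)⟩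
  have h2 : SubC e Φ Z1 := (h1.trans hW1).mono (by omega)
  have h3 : SubC e W0 Z0 := hW0.mono (by omega)
  classical
  unfold HQ
  rw [mem_filter]
  refine ⟨mem_univ _, W0, Φ, h3, h2, ?_⟩
  rw [ecol_right, mul_sum, mul_comm, ← smul_eq_mul, ← sum_const]
  exact sum_le_sum fun x hx => (mem_filter.1 hx).2

/-- TARGET: prove this -/
theorem dominance {V C : Type} [DecidableEq V] [Fintype C] [DecidableEq C] (c : V → V → C)
    (B : ℕ) (X : Finset V) (hX : Sparse c B X) (Z0 Z1 : Finset V) (h0 : Z0 ⊆ X) (h1 : Z1 ⊆ X)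
    (hd : Disjoint Z0 Z1) (hn0 : Z0.Nonempty) (hn1 : Z1.Nonempty) (n b e a l : ℕ) (hn : 1 ≤ n)
    (hb : 256 * n ^ 3 * (B + 1) ^ 2 ≤ 2 ^ b) (hl : 4 * n * Fintype.card C ≤ 2 ^ l)
    (hale : a + l ≤ e) (W0 W1 : Finset V) (hW0 : SubC a W0 Z0) (hW1 : SubC a W1 Z1) :
    Dom c n W0 W1 (HQ c e b Z0 Z1) := by
  classical
  by_contra hdom
  unfold Dom at hdom
  push Not at hdom
  have hN0 : W0.Nonempty := hW0.nonempty hn0
  have hN1 : W1.Nonempty := hW1.nonempty hn1
  have hs : 0 < Fintype.card C := by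
    obtain ⟨x, _⟩ := hN0
    exact Fintype.card_pos_iff.2 ⟨c x x⟩
  obtain ⟨Q, hQ⟩ : ∃ Q, Q = HQ c e b Z0 Z1 := ⟨_, rfl⟩
  have hL := fun k hk => dom_left c Z0 Z1 n b e a l hl hale W0 W1 hW0 hW1 k hk
  have hR := fun k hk => dom_right c Z0 Z1 n b e a l hl hale W0 W1 hW0 hW1 k hk
  rw [← hQ] at hdom hL hR
  set LB := W0.filter (fun x => ∃ k, k ∉ Q ∧
    W1.card ≤ 2 ^ b * (W1.filter (fun y => c x y = k)).card) with hLB
  set RB := W1.filter (fun y => ∃ k, k ∉ Q ∧
    W0.card ≤ 2 ^ b * (W0.filter (fun x => c x y = k)).card) with hRB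
  have hLBc : 4 * n * LB.card ≤ W0.card := by
    refine dom_pigeon Q n _ _ LB hs ?_ hL
    intro x hx
    rw [hLB, mem_filter] at hx
    obtain ⟨hx0, k, hk, hxk⟩ := hx
    exact ⟨k, hk, mem_filter.2 ⟨hx0, hxk⟩⟩
  have hRBc : 4 * n * RB.card ≤ W1.card := by
    refine dom_pigeon Q n _ _ RB hs ?_ hR
    intro x hx
    rw [hRB, mem_filter] at hx
    obtain ⟨hx0, k, hk, hxk⟩ := hx
    exact ⟨k, hk, mem_filter.2 ⟨hx0, hxk⟩⟩
  set G := (W0 ×ˢ W1).filter (fun p => p.1 ∉ LB ∧ p.2 ∉ RB ∧ c p.1 p.2 ∉ Q) with hG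
  have hsub : (W0 ×ˢ W1).filter (fun p => c p.1 p.2 ∉ Q) ⊆ G ∪ (LB ×ˢ W1 ∪ W0 ×ˢ RB) := by
    intro p hp
    rw [mem_filter, mem_product] at hp
    obtain ⟨⟨hp0, hp1⟩, hpc⟩ := hp
    rw [mem_union, mem_union, mem_product, mem_product]
    by_cases hl' : p.1 ∈ LB
    · exact Or.inr (Or.inl ⟨hl', hp1⟩)
    · by_cases hr' : p.2 ∈ RB
      · exact Or.inr (Or.inr ⟨hp0, hr'⟩)
      · left
        rw [hG, mem_filter, mem_product]
        exact ⟨⟨hp0, hp1⟩, hl', hr', hpc⟩
  have hcard : ((W0 ×ˢ W1).filter (fun p => c p.1 p.2 ∉ Q)).card ≤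
      G.card + (LB.card * W1.card + W0.card * RB.card) := by
    refine (card_le_card hsub).trans ((card_union_le _ _).trans ?_)
    apply Nat.add_le_add_left
    refine (card_union_le _ _).trans ?_
    rw [card_product, card_product]
  have hGc : W0.card * W1.card < 2 * n * G.card := by
    have e1 := Nat.mul_le_mul_right W1.card hLBc
    have e2 := Nat.mul_le_mul_left W0.card hRBc
    have e3 := Nat.mul_le_mul_left (4 * n) hcard
    have e4 : 4 * n * (G.card + (LB.card * W1.card + W0.card * RB.card)) =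
      4 * n * G.card + (4 * n * LB.card * W1.card + W0.card * (4 * n * RB.card)) := by ring
    rw [e4] at e3
    have e5 : 4 * n * ((W0 ×ˢ W1).filter (fun p => c p.1 p.2 ∉ Q)).card =
      4 * (n * ((W0 ×ˢ W1).filter (fun p => c p.1 p.2 ∉ Q)).card) := by ring
    have e6 : 4 * n * G.card = 2 * (2 * n * G.card) := by ring
    omega
  have hnR : (0 : ℝ) < n := by exact_mod_cast hn
  have h2b : (0 : ℝ) < 2 ^ b := by positivity
  have key := sample_lemma c B X hX W0 W1 (hW0.1.trans h0) (hW1.1.trans h1) hN0 hN1 G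
    (filter_subset _ _)
    (by
      intro p hp heq
      rw [hG, mem_filter, mem_product] at hp
      have hp1 := hW1.1 hp.1.2
      rw [← heq] at hp1
      exact (disjoint_left.1 hd) (hW0.1 hp.1.1) hp1)
    (1 / (2 * n)) (1 / 2 ^ b)
    (by
      rw [one_div, inv_mul_le_iff₀ (by positivity)]
      exact_mod_cast hGc.le)
    (by
      intro x hx k
      rw [one_div, ← div_eq_inv_mul, le_div_iff₀ h2b]
      by_cases hne : (W1.filter (fun y => (x, y) ∈ G ∧ c x y = k)).Nonempty
      · obtain ⟨y, hy⟩ := hne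
        rw [mem_filter] at hy
        obtain ⟨hy1, hyG, hyk⟩ := hy
        rw [hG, mem_filter] at hyG
        obtain ⟨_, hxL, _, hyQ⟩ := hyG
        have hlt : 2 ^ b * (W1.filter (fun y => c x y = k)).card < W1.card := by
          by_contra hcon
          push Not at hcon
          apply hxL
          rw [hLB, mem_filter]
          exact ⟨hx, k, by rw [← hyk]; exact hyQ, hcon⟩
        have hle : (W1.filter (fun y => (x, y) ∈ G ∧ c x y = k)).card ≤
            (W1.filter (fun y => c x y = k)).card := by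
          apply card_le_card
          intro z hz
          rw [mem_filter] at hz ⊢
          exact ⟨hz.1, hz.2.2⟩
        have hle2 : (W1.filter (fun y => (x, y) ∈ G ∧ c x y = k)).card * 2 ^ b ≤ W1.card := by
          have := Nat.mul_le_mul_left (2 ^ b) hle
          rw [mul_comm]
          omega
        exact_mod_cast hle2
      · rw [not_nonempty_iff_eq_empty] at hne
        rw [hne, card_empty]
        simp)
    (by
      intro y hy k
      rw [one_div, ← div_eq_inv_mul, le_div_iff₀ h2b]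
      by_cases hne : (W0.filter (fun x => (x, y) ∈ G ∧ c x y = k)).Nonempty
      · obtain ⟨x, hx⟩ := hne
        rw [mem_filter] at hx
        obtain ⟨hx1, hxG, hxk⟩ := hx
        rw [hG, mem_filter] at hxG
        obtain ⟨_, _, hyR, hyQ⟩ := hxG
        have hlt : 2 ^ b * (W0.filter (fun x => c x y = k)).card < W0.card := by
          by_contra hcon
          push Not at hcon
          apply hyR
          rw [hRB, mem_filter]
          exact ⟨hy, k, by rw [← hxk]; exact hyQ, hcon⟩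
        have hle : (W0.filter (fun x => (x, y) ∈ G ∧ c x y = k)).card ≤
            (W0.filter (fun x => c x y = k)).card := by
          apply card_le_card
          intro z hz
          rw [mem_filter] at hz ⊢
          exact ⟨hz.1, hz.2.2⟩
        have hle2 : (W0.filter (fun x => (x, y) ∈ G ∧ c x y = k)).card * 2 ^ b ≤ W0.card := by
          have := Nat.mul_le_mul_left (2 ^ b) hle
          rw [mul_comm]
          omega
        exact_mod_cast hle2
      · rw [not_nonempty_iff_eq_empty] at hne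
        rw [hne, card_empty]
        simp)
    (8 * n * (B + 1))
  -- numerical contradiction
  obtain ⟨t, ht⟩ : ∃ t : ℝ, t = ((8 * n * (B + 1) : ℕ) : ℝ) := ⟨_, rfl⟩
  rw [← ht] at key
  have hte : t = 8 * n * (B + 1) := by rw [ht]; push_cast; ring
  have htpos : 0 < t := by rw [hte]; positivity
  have hbR : 256 * (n : ℝ) ^ 3 * (B + 1) ^ 2 ≤ 2 ^ b := by exact_mod_cast hb
  have h4n : 4 * (n : ℝ) * t ^ 2 ≤ 2 ^ b := by
    refine le_trans (le_of_eq ?_) hbR
    rw [hte]; ring
  have h5 : 1 / 2 ^ b * t ^ 4 ≤ t ^ 2 / (4 * n) := by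
    rw [one_div, ← div_eq_inv_mul, div_le_div_iff₀ h2b (by positivity)]
    calc t ^ 4 * (4 * n) = t ^ 2 * (4 * n * t ^ 2) := by ring
      _ ≤ t ^ 2 * 2 ^ b := mul_le_mul_of_nonneg_left h4n (by positivity)
  have h6 : 1 / (2 * (n : ℝ)) * t ^ 2 = 2 * (t ^ 2 / (4 * n)) := by
    field_simp
    ring
  rw [h6] at key
  have h7 : t ^ 2 / (4 * n) ≤ 2 * B * t := by linarith
  rw [div_le_iff₀ (by positivity)] at h7
  have h8 : t * t ≤ (8 * n * B) * t := by nlinarith
  have h9 : t ≤ 8 * n * B := le_of_mul_le_mul_right h8 htpos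
  rw [hte] at h9
  nlinarith


end EG
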