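import Pool.Agent.EGFour.B9

set_option autoImplicit false
set_option linter.unusedSectionVars false

open Finset

namespace EG

theorem select_fiber {V Λ : Type} [DecidableEq V] [Fintype Λ] [DecidableEq Λ]
    (Z : Λ → Finset V) (σ τ : Λ) (hst : σ ≠ τ) (u v : V) (hu : u ∈ Z σ) (hv : v ∈ Z τ) :
    ((Fintype.piFinset Z).filter (fun x => (x σ, x τ) = (u, v))).card =
      ∏ ρ ∈ (Finset.univ.erase σ).erase τ, (Z ρ).card := by
  have e : (Fintype.piFinset Z).filter (fun x => (x σ, x τ) = (u, v)) =
      Fintype.piFinset (fun ρ => if ρ = σ then {u} else if ρ = τ then {v} else Z ρ) := by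
    ext x
    rw [Finset.mem_filter, Fintype.mem_piFinset, Fintype.mem_piFinset]
    constructor
    · rintro ⟨h1, h2⟩ ρ
      rw [Prod.mk.injEq] at h2
      by_cases hσ : ρ = σ
      · subst hσ
        simp [h2.1]
      · by_cases hτ : ρ = τ
        · subst hτ
          simp [hσ, h2.2]
        · simp only [hσ, hτ, if_false]
          exact h1 ρ
    · intro h
      have h1 : x σ = u := by
        have := h σ
        simpa using this
      have h2 : x τ = v := by
        have := h τ
        simpa [hst.symm] using this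
      refine ⟨fun ρ => ?_, by rw [h1, h2]⟩
      by_cases hσ : ρ = σ
      · subst hσ
        rw [h1]; exact hu
      · by_cases hτ : ρ = τ
        · subst hτ
          rw [h2]; exact hv
        · have := h ρ
          simpa [hσ, hτ] using this
  rw [e, Fintype.card_piFinset, ← Finset.mul_prod_erase Finset.univ _ (Finset.mem_univ σ),
    ← Finset.mul_prod_erase (Finset.univ.erase σ) _
      (Finset.mem_erase.mpr ⟨hst.symm, Finset.mem_univ τ⟩)]
  simp only [if_true, Finset.card_singleton, one_mul, hst.symm, if_false]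
  refine Finset.prod_congr rfl fun ρ hρ => ?_
  rw [Finset.mem_erase, Finset.mem_erase] at hρ
  simp [hρ.1, hρ.2.1]

theorem select_count {V Λ : Type} [DecidableEq V] [Fintype Λ] [DecidableEq Λ]
    (Z : Λ → Finset V) (σ τ : Λ) (hst : σ ≠ τ) (b : V × V → Prop) [DecidablePred b] :
    ((Fintype.piFinset Z).filter (fun x => b (x σ, x τ))).card =
      ((Z σ ×ˢ Z τ).filter b).card * ∏ ρ ∈ (Finset.univ.erase σ).erase τ, (Z ρ).card := by
  rw [Finset.card_eq_sum_card_fiberwise (f := fun x => (x σ, x τ)) (t := (Z σ ×ˢ Z τ).filter b)]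
  · rw [Finset.sum_congr rfl (g := fun _ => ∏ ρ ∈ (Finset.univ.erase σ).erase τ, (Z ρ).card)]
    · rw [Finset.sum_const, smul_eq_mul]
    · rintro ⟨u, v⟩ huv
      rw [Finset.mem_filter, Finset.mem_product] at huv
      rw [← select_fiber Z σ τ hst u v huv.1.1 huv.1.2, Finset.filter_filter]
      congr 1
      ext x
      simp only [Finset.mem_filter]
      constructor
      · rintro ⟨h1, _, h3⟩
        exact ⟨h1, h3⟩
      · rintro ⟨h1, h3⟩
        refine ⟨h1, ?_, h3⟩
        rw [h3]
        exact huv.2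
  · intro x hx
    simp only [Finset.coe_filter, Set.mem_setOf_eq, Fintype.mem_piFinset] at hx
    simp only [Finset.coe_filter, Set.mem_setOf_eq, Finset.mem_product]
    exact ⟨⟨hx.1 σ, hx.1 τ⟩, hx.2⟩

theorem select_card {V Λ : Type} [DecidableEq V] [Fintype Λ] [DecidableEq Λ]
    (Z : Λ → Finset V) (σ τ : Λ) (hst : σ ≠ τ) :
    (Fintype.piFinset Z).card =
      ((Z σ).card * (Z τ).card) * ∏ ρ ∈ (Finset.univ.erase σ).erase τ, (Z ρ).card := by
  rw [Fintype.card_piFinset, ← Finset.mul_prod_erase Finset.univ _ (Finset.mem_univ σ),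
    ← Finset.mul_prod_erase (Finset.univ.erase σ) _
      (Finset.mem_erase.mpr ⟨hst.symm, Finset.mem_univ τ⟩), mul_assoc]

/-- TARGET: prove this -/
theorem select {V C : Type} [DecidableEq V] [DecidableEq C] (c : V → V → C) (n N : ℕ)
    (hn : 4 ^ N < n) (Z : (Fin N → Bool) → Finset V) (hZ : ∀ σ, (Z σ).Nonempty)
    (Q : Fin N → Finset C) (h : UT c n N Z Q) :
    ∃ x : (Fin N → Bool) → V, UTree c N x Q := by
  classical
  set P := Fintype.piFinset Z with hP
  have hP0 : 0 < P.card := by
    rw [hP, Fintype.card_piFinset]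
    exact Finset.prod_pos fun σ _ => Finset.card_pos.mpr (hZ σ)
  set Bad : (Fin N → Bool) × (Fin N → Bool) → Finset ((Fin N → Bool) → V) := fun q =>
    P.filter (fun x => ∃ i, (∀ j < i, q.1 j = q.2 j) ∧ q.1 i ≠ q.2 i ∧
      c (x q.1) (x q.2) ∉ Q i) with hBad
  have hb : ∀ q, n * (Bad q).card ≤ P.card := by
    rintro ⟨σ, τ⟩
    by_cases hex : ∃ i : Fin N, (∀ j < i, σ j = τ j) ∧ σ i ≠ τ i
    · obtain ⟨i, h1, h2⟩ := hex
      have hst : σ ≠ τ := fun e => h2 (by rw [e])
      have hsub : Bad (σ, τ) ⊆ P.filter (fun x => c (x σ) (x τ) ∉ Q i) := by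
        intro x hx
        rw [hBad, Finset.mem_filter] at hx
        rw [Finset.mem_filter]
        refine ⟨hx.1, ?_⟩
        obtain ⟨i', h1', h2', h3'⟩ := hx.2
        simp only at h1' h2' h3'
        have : i' = i := by
          rcases lt_trichotomy i' i with hlt | heq | hgt
          · exact absurd (h1 i' hlt) h2'
          · exact heq
          · exact absurd (h1' i hgt) h2
        rw [← this]
        exact h3'
      have hcount := select_count Z σ τ hst (fun p : V × V => c p.1 p.2 ∉ Q i)
      have hcard := select_card Z σ τ hst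
      have hdom := (h σ τ i h1 h2).2
      unfold Dom at hdom
      calc n * (Bad (σ, τ)).card ≤ n * (P.filter (fun x => c (x σ) (x τ) ∉ Q i)).card :=
            Nat.mul_le_mul_left _ (Finset.card_le_card hsub)
        _ = (n * ((Z σ ×ˢ Z τ).filter (fun p => c p.1 p.2 ∉ Q i)).card) *
              ∏ ρ ∈ (Finset.univ.erase σ).erase τ, (Z ρ).card := by
            rw [mul_assoc]
            congr 1
        _ ≤ ((Z σ).card * (Z τ).card) * ∏ ρ ∈ (Finset.univ.erase σ).erase τ, (Z ρ).card :=
            Nat.mul_le_mul_right _ hdom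
        _ = P.card := hcard.symm
    · have : Bad (σ, τ) = ∅ := by
        rw [hBad]
        apply Finset.filter_false_of_mem
        rintro x _ ⟨i, h1, h2, _⟩
        exact hex ⟨i, h1, h2⟩
      rw [this, Finset.card_empty, mul_zero]
      exact Nat.zero_le _
  have hU : (Finset.univ.biUnion Bad).card < P.card := by
    have h1 : n * (Finset.univ.biUnion Bad).card ≤ 4 ^ N * P.card := by
      calc n * (Finset.univ.biUnion Bad).card
          ≤ n * ∑ q : (Fin N → Bool) × (Fin N → Bool), (Bad q).card :=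
            Nat.mul_le_mul_left _ Finset.card_biUnion_le
        _ = ∑ q : (Fin N → Bool) × (Fin N → Bool), n * (Bad q).card := Finset.mul_sum _ _ _
        _ ≤ ∑ q : (Fin N → Bool) × (Fin N → Bool), P.card := Finset.sum_le_sum fun q _ => hb q
        _ = 4 ^ N * P.card := by
            rw [Finset.sum_const, smul_eq_mul, Finset.card_univ, Fintype.card_prod,
              Fintype.card_fun, Fintype.card_bool, Fintype.card_fin, ← mul_pow]
            norm_num
    by_contra hc
    rw [not_lt] at hc
    have h2 : n * P.card ≤ 4 ^ N * P.card := (Nat.mul_le_mul_left _ hc).trans h1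
    have h3 : 4 ^ N * P.card < n * P.card := Nat.mul_lt_mul_of_pos_right hn hP0
    omega
  obtain ⟨x, hxP, hxU⟩ := Finset.exists_mem_notMem_of_card_lt_card hU
  refine ⟨x, fun σ τ i h1 h2 => ?_⟩
  have hx : ∀ σ, x σ ∈ Z σ := Fintype.mem_piFinset.mp hxP
  refine ⟨fun e => ?_, ?_⟩
  · have hd := (h σ τ i h1 h2).1
    exact Finset.disjoint_left.mp hd (hx σ) (by rw [e]; exact hx τ)
  · by_contra hc
    apply hxU
    rw [Finset.mem_biUnion]
    refine ⟨(σ, τ), Finset.mem_univ _, ?_⟩
    rw [hBad, Finset.mem_filter]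
    exact ⟨hxP, i, h1, h2, hc⟩


end EG
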