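import Pool.Agent.EGFour.B1

set_option autoImplicit false
set_option linter.unusedSectionVars false

open Finset

namespace EG

theorem phase_ecol {V C : Type} [DecidableEq V] [DecidableEq C] (c : V → V → C) (k : C)
    (W Z : Finset V) : ecol c k W Z = ∑ x ∈ W, (Z.filter (fun y => c x y = k)).card := by
  unfold ecol
  rw [Finset.card_filter, Finset.sum_product]
  refine Finset.sum_congr rfl fun x _ => ?_
  rw [Finset.card_filter]

/-- many vertices have a large degree in the colour `kk` -/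
theorem phase_deg {V C : Type} [DecidableEq V] [DecidableEq C] (c : V → V → C) (kk : C) (b : ℕ)
    (W Z : Finset V) (hZ : Z.Nonempty) (h : W.card * Z.card ≤ 2 ^ b * ecol c kk W Z) :
    W.card ≤ 2 ^ (b + 1) *
      (W.filter (fun x => Z.card ≤ 2 ^ (b + 1) * (Z.filter (fun y => c x y = kk)).card)).card := by
  obtain ⟨z, hz⟩ : ∃ z, z = Z.card := ⟨_, rfl⟩
  have hz0 : 0 < z := by rw [hz]; exact hZ.card_pos
  rw [← hz] at h ⊢
  obtain ⟨W2, hW2⟩ : ∃ W2, W2 = W.filter (fun x => z ≤ 2 ^ (b + 1) *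
    (Z.filter (fun y => c x y = kk)).card) := ⟨_, rfl⟩
  rw [← hW2]
  have hW2sub : W2 ⊆ W := by rw [hW2]; exact Finset.filter_subset _ _
  have h1 : ∀ x ∈ W, 2 ^ (b + 1) * (Z.filter (fun y => c x y = kk)).card ≤
      z + (if x ∈ W2 then 2 ^ (b + 1) * z else 0) := by
    intro x hx
    split_ifs with hx2
    · have : (Z.filter (fun y => c x y = kk)).card ≤ z := by
        rw [hz]
        exact Finset.card_filter_le _ _
      have := Nat.mul_le_mul_left (2 ^ (b + 1)) this
      omega
    · have h2 : ¬ z ≤ 2 ^ (b + 1) * (Z.filter (fun y => c x y = kk)).card := by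
        intro h3
        apply hx2
        rw [hW2, Finset.mem_filter]
        exact ⟨hx, h3⟩
      omega
  have h2 : 2 ^ (b + 1) * ecol c kk W Z ≤ W.card * z + W2.card * (2 ^ (b + 1) * z) := by
    rw [phase_ecol, Finset.mul_sum]
    refine (Finset.sum_le_sum h1).trans ?_
    rw [Finset.sum_add_distrib, Finset.sum_const, smul_eq_mul, Finset.sum_ite_mem,
      Finset.inter_eq_right.2 hW2sub, Finset.sum_const, smul_eq_mul]
  have h3 : 2 * (W.card * z) ≤ 2 ^ (b + 1) * ecol c kk W Z := by
    rw [pow_succ', mul_assoc]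
    exact Nat.mul_le_mul_left 2 h
  have h4 : W.card * z ≤ (2 ^ (b + 1) * W2.card) * z := by
    have : W2.card * (2 ^ (b + 1) * z) = (2 ^ (b + 1) * W2.card) * z := by ring
    omega
  exact Nat.le_of_mul_le_mul_right h4 hz0

theorem phase_ind {V C : Type} [DecidableEq V] [Fintype C] [DecidableEq C] (c : V → V → C)
    (t b : ℕ) (X0 X1 : Finset V) (hn0 : X0.Nonempty) (hn1 : X1.Nonempty) (f F : ℕ → ℕ)
    (hF : ∀ k, F k + f k + (b + 1) ≤ F (k + 1))
    (hrich : ∀ k < t ^ 2, ∀ Z0 Z1 : Finset V, SubC (F k) Z0 X0 → SubC (F k) Z1 X1 →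
      t ^ 2 ≤ (HQ c (f k) b Z0 Z1).card)
    (i : ℕ) (hi : i < t) (Z : Fin t → Finset V) (hZ : ∀ j, SubC (F (i * t)) (Z j) X1)
    (U : Finset C) (hU : U.card ≤ i * t) (j : ℕ) (hj : j ≤ t) :
    ∃ W : Finset V, SubC (F (i * t + j)) W X0 ∧ ∃ Z' : Fin t → Finset V, ∃ col : Fin t → C,
      (∀ j' : Fin t, j ≤ j'.val → Z' j' = Z j') ∧ (∀ j', Z' j' ⊆ Z j') ∧
      (∀ j' : Fin t, j'.val < j → col j' ∉ U) ∧
      (∀ j' j'' : Fin t, j'.val < j → j''.val < j → col j' = col j'' → j' = j'') ∧
      (∀ j' : Fin t, j'.val < j → ∀ x ∈ W,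
        SubC (F (i * t + j)) ((Z' j').filter (fun y => c x y = col j')) X1) := by
  classical
  have hmono : Monotone F := monotone_nat_of_le_succ fun k => by
    have := hF k
    omega
  induction j with
  | zero =>
    have ht0 : 0 < t := by omega
    have h0 := hrich 0 (by positivity) X0 X1 (SubC.refl' _ _) (SubC.refl' _ _)
    have h1 : 0 < (HQ c (f 0) b X0 X1).card := lt_of_lt_of_le (by positivity) h0
    obtain ⟨k0, -⟩ := Finset.card_pos.1 h1
    exact ⟨X0, SubC.refl' _ _, Z, fun _ => k0, fun _ _ => rfl, fun _ => subset_rfl,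
      fun _ h => absurd h (Nat.not_lt_zero _), fun _ _ h => absurd h (Nat.not_lt_zero _),
      fun _ h => absurd h (Nat.not_lt_zero _)⟩
  | succ j ih =>
    obtain ⟨W, hW, Z', col, a1, a2, b1, b2, c1⟩ := ih (by omega)
    have hjt : j < t := by omega
    obtain ⟨k, hk⟩ : ∃ k, k = i * t + j := ⟨_, rfl⟩
    have hk1 : i * t + (j + 1) = k + 1 := by omega
    rw [← hk] at hW c1
    rw [hk1]
    have hkt : k < t ^ 2 := by
      rw [hk]
      nlinarith
    have hZk : SubC (F k) (Z ⟨j, hjt⟩) X1 := (hZ ⟨j, hjt⟩).mono (hmono (by omega))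
    have hr := hrich k hkt W (Z ⟨j, hjt⟩) hW hZk
    obtain ⟨B, hB⟩ : ∃ B, B = U ∪ (univ.filter (fun j' : Fin t => j'.val < j)).image col :=
      ⟨_, rfl⟩
    have hBc : B.card < t ^ 2 := by
      have h1 : (univ.filter (fun j' : Fin t => j'.val < j)).card ≤ (Finset.range j).card := by
        refine Finset.card_le_card_of_injOn (fun j' : Fin t => j'.val) ?_ ?_
        · intro a ha
          simpa using ha
        · intro a _ a' _ haa
          exact Fin.ext haa
      rw [Finset.card_range] at h1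
      have h2 : B.card ≤ U.card + (univ.filter (fun j' : Fin t => j'.val < j)).card := by
        rw [hB]
        exact (Finset.card_union_le _ _).trans (Nat.add_le_add_left Finset.card_image_le _)
      omega
    obtain ⟨kk, hkk, hkB⟩ := Finset.exists_mem_notMem_of_card_lt_card (lt_of_lt_of_le hBc hr)
    have hkU : kk ∉ U := fun h => hkB (by rw [hB]; exact Finset.mem_union_left _ h)
    have hkc : ∀ j' : Fin t, j'.val < j → col j' ≠ kk := fun j' hj' h => hkB (by
      rw [hB]
      refine Finset.mem_union_right _ (Finset.mem_image.2 ⟨j', ?_, h⟩)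
      rw [Finset.mem_filter]
      exact ⟨Finset.mem_univ _, hj'⟩)
    unfold HQ at hkk
    rw [Finset.mem_filter] at hkk
    obtain ⟨-, W1, Z1, hW1, hZ1, hd⟩ := hkk
    have hZ1ne : Z1.Nonempty := hZ1.nonempty (hZk.nonempty hn1)
    obtain ⟨W2, hW2⟩ : ∃ W2, W2 = W1.filter (fun x => Z1.card ≤ 2 ^ (b + 1) *
      (Z1.filter (fun y => c x y = kk)).card) := ⟨_, rfl⟩
    have hW2' : SubC (b + 1) W2 W1 := by
      rw [hW2]
      exact ⟨Finset.filter_subset _ _, phase_deg c kk b W1 Z1 hZ1ne hd⟩
    have hle : b + 1 + f k + F k ≤ F (k + 1) := by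
      have := hF k
      omega
    have hFk : F k ≤ F (k + 1) := hmono (Nat.le_succ k)
    refine ⟨W2, ((hW2'.trans hW1).trans hW).mono hle, Function.update Z' ⟨j, hjt⟩ Z1,
      Function.update col ⟨j, hjt⟩ kk, ?_, ?_, ?_, ?_, ?_⟩
    · intro j' hj'
      rw [Function.update_of_ne (fun h => by rw [h] at hj'; simp at hj')]
      exact a1 j' (by omega)
    · intro j'
      by_cases h : j' = ⟨j, hjt⟩
      · rw [h, Function.update_self]
        exact hZ1.1
      · rw [Function.update_of_ne h]
        exact a2 j'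
    · intro j' hj'
      by_cases h : j' = ⟨j, hjt⟩
      · rw [h, Function.update_self]
        exact hkU
      · rw [Function.update_of_ne h]
        refine b1 j' ?_
        have : j'.val ≠ j := fun h' => h (Fin.ext h')
        omega
    · intro j' j'' hj' hj''
      by_cases h : j' = ⟨j, hjt⟩
      · by_cases h' : j'' = ⟨j, hjt⟩
        · intro _
          rw [h, h']
        · rw [h, Function.update_self, Function.update_of_ne h']
          intro he
          have : j''.val ≠ j := fun h'' => h' (Fin.ext h'')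
          exact absurd he.symm (hkc j'' (by omega))
      · have hn : j'.val ≠ j := fun h'' => h (Fin.ext h'')
        by_cases h' : j'' = ⟨j, hjt⟩
        · rw [h', Function.update_self, Function.update_of_ne h]
          intro he
          exact absurd he (hkc j' (by omega))
        · rw [Function.update_of_ne h, Function.update_of_ne h']
          have hn' : j''.val ≠ j := fun h'' => h' (Fin.ext h'')
          exact b2 j' j'' (by omega) (by omega)
    · intro j' hj' x hx
      by_cases h : j' = ⟨j, hjt⟩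
      · rw [h, Function.update_self, Function.update_self]
        rw [hW2, Finset.mem_filter] at hx
        have h1 : SubC (b + 1) (Z1.filter (fun y => c x y = kk)) Z1 :=
          ⟨Finset.filter_subset _ _, hx.2⟩
        exact ((h1.trans hZ1).trans hZk).mono hle
      · rw [Function.update_of_ne h, Function.update_of_ne h]
        have hn : j'.val ≠ j := fun h'' => h (Fin.ext h'')
        exact (c1 j' (by omega) x (hW1.1 (hW2'.1 hx))).mono hFk

/-- TARGET: prove this -/
theorem phase {V C : Type} [DecidableEq V] [Fintype C] [DecidableEq C] (c : V → V → C)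
    (t b : ℕ) (X0 X1 : Finset V) (hn0 : X0.Nonempty) (hn1 : X1.Nonempty) (f F : ℕ → ℕ)
    (hF : ∀ k, F k + f k + (b + 1) ≤ F (k + 1))
    (hrich : ∀ k < t ^ 2, ∀ Z0 Z1 : Finset V, SubC (F k) Z0 X0 → SubC (F k) Z1 X1 →
      t ^ 2 ≤ (HQ c (f k) b Z0 Z1).card)
    (i : ℕ) (hi : i < t) (Z : Fin t → Finset V) (hZ : ∀ j, SubC (F (i * t)) (Z j) X1)
    (U : Finset C) (hU : U.card ≤ i * t) :
    ∃ x ∈ X0, ∃ Z' : Fin t → Finset V, ∃ col : Fin t → C, Function.Injective col ∧
      (∀ j, col j ∉ U) ∧ (∀ j, Z' j ⊆ Z j) ∧ (∀ j, SubC (F ((i + 1) * t)) (Z' j) X1) ∧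
      ∀ j, ∀ y ∈ Z' j, c x y = col j := by
  obtain ⟨W, hW, Z', col, -, a2, b1, b2, c1⟩ := phase_ind c t b X0 X1 hn0 hn1 f F hF hrich i hi Z
    hZ U hU t le_rfl
  obtain ⟨x, hx⟩ := hW.nonempty hn0
  have e : i * t + t = (i + 1) * t := by ring
  rw [e] at c1
  refine ⟨x, hW.1 hx, fun j => (Z' j).filter (fun y => c x y = col j), col, ?_, ?_, ?_, ?_, ?_⟩
  · intro j j' h
    exact b2 j j' j.2 j'.2 h
  · exact fun j => b1 j j.2
  · exact fun j => (Finset.filter_subset _ _).trans (a2 j)
  · exact fun j => c1 j j.2 x hx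
  · exact fun j y hy => (Finset.mem_filter.1 hy).2


end EG
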