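import Pool.Agent.EGFour.B2

set_option autoImplicit false
set_option linter.unusedSectionVars false

open Finset

namespace EG

theorem grid_aux {V C : Type} [DecidableEq V] [Fintype C] [DecidableEq C] (c : V → V → C)
    (t b : ℕ) (X0 X1 : Finset V) (hn0 : X0.Nonempty) (hn1 : X1.Nonempty) (f F : ℕ → ℕ)
    (hF : ∀ k, F k + f k + (b + 1) ≤ F (k + 1))
    (hrich : ∀ k < t ^ 2, ∀ Z0 Z1 : Finset V, SubC (F k) Z0 X0 → SubC (F k) Z1 X1 →
      t ^ 2 ≤ (HQ c (f k) b Z0 Z1).card) (i : ℕ) (hi : i ≤ t) :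
    ∃ (x : ℕ → V) (Z : Fin t → Finset V) (col : ℕ → Fin t → C),
      (∀ i' < i, x i' ∈ X0) ∧ (∀ j, SubC (F (i * t)) (Z j) X1) ∧
      (∀ i' < i, ∀ j, ∀ y ∈ Z j, c (x i') y = col i' j) ∧
      (∀ i1 < i, ∀ i2 < i, ∀ j1 j2, col i1 j1 = col i2 j2 → i1 = i2 ∧ j1 = j2) := by
  induction i with
  | zero =>
    obtain ⟨x0, hx0⟩ := hn0
    exact ⟨fun _ => x0, fun _ => X1, fun _ _ => c x0 x0, fun _ h => absurd h (Nat.not_lt_zero _),
      fun _ => SubC.refl' _ _, fun _ h => absurd h (Nat.not_lt_zero _),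
      fun _ h => absurd h (Nat.not_lt_zero _)⟩
  | succ i ih =>
    obtain ⟨x, Z, col, h1, h2, h3, h4⟩ := ih (by omega)
    obtain ⟨x', hx', Z', col', hinj, hU, hZ, hS, hc⟩ := phase c t b X0 X1 hn0 hn1 f F hF hrich i
      (by omega) Z h2 ((Finset.range i ×ˢ (Finset.univ : Finset (Fin t))).image
        fun p => col p.1 p.2) (by
          refine Finset.card_image_le.trans ?_
          rw [Finset.card_product, Finset.card_range, Finset.card_univ, Fintype.card_fin])
    have hnew : ∀ i' < i, ∀ j j', col i' j ≠ col' j' := by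
      intro i' hi' j j' he
      refine hU j' ?_
      rw [← he]
      exact Finset.mem_image.2 ⟨(i', j), by simp [hi'], rfl⟩
    refine ⟨Function.update x i x', Z', Function.update col i col', ?_, hS, ?_, ?_⟩
    · intro i' hi'
      rcases Nat.lt_succ_iff_lt_or_eq.1 hi' with h | h
      · rw [Function.update_of_ne h.ne]; exact h1 i' h
      · subst h; rw [Function.update_self]; exact hx'
    · intro i' hi' j y hy
      rcases Nat.lt_succ_iff_lt_or_eq.1 hi' with h | h
      · rw [Function.update_of_ne h.ne, Function.update_of_ne h.ne]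
        exact h3 i' h j y (hZ j hy)
      · subst h; rw [Function.update_self, Function.update_self]; exact hc j y hy
    · intro i1 hi1 i2 hi2 j1 j2 he
      rcases Nat.lt_succ_iff_lt_or_eq.1 hi1 with h | h <;>
        rcases Nat.lt_succ_iff_lt_or_eq.1 hi2 with h' | h'
      · rw [Function.update_of_ne h.ne, Function.update_of_ne h'.ne] at he
        exact h4 i1 h i2 h' j1 j2 he
      · subst h'
        rw [Function.update_of_ne h.ne, Function.update_self] at he
        exact absurd he (hnew i1 h j1 j2)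
      · subst h
        rw [Function.update_of_ne h'.ne, Function.update_self] at he
        exact absurd he.symm (hnew i2 h' j2 j1)
      · subst h
        subst h'
        rw [Function.update_self] at he
        exact ⟨rfl, hinj he⟩

/-- TARGET: prove this -/
theorem grid {V C : Type} [DecidableEq V] [Fintype C] [DecidableEq C] (c : V → V → C)
    (t b : ℕ) (X0 X1 : Finset V) (hn0 : X0.Nonempty) (hn1 : X1.Nonempty) (f F : ℕ → ℕ)
    (hF : ∀ k, F k + f k + (b + 1) ≤ F (k + 1))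
    (hrich : ∀ k < t ^ 2, ∀ Z0 Z1 : Finset V, SubC (F k) Z0 X0 → SubC (F k) Z1 X1 →
      t ^ 2 ≤ (HQ c (f k) b Z0 Z1).card) :
    ∃ x y : Fin t → V, (∀ i, x i ∈ X0) ∧ (∀ j, y j ∈ X1) ∧
      Function.Injective (fun p : Fin t × Fin t => c (x p.1) (y p.2)) := by
  obtain ⟨x, Z, col, h1, h2, h3, h4⟩ := grid_aux c t b X0 X1 hn0 hn1 f F hF hrich t le_rfl
  have hne : ∀ j, ∃ y, y ∈ Z j := fun j => (h2 j).nonempty hn1
  choose y hy using hne
  refine ⟨fun i => x i, y, fun i => h1 i i.2, fun j => (h2 j).1 (hy j), ?_⟩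
  rintro ⟨i1, j1⟩ ⟨i2, j2⟩ he
  simp only at he
  rw [h3 i1 i1.2 j1 (y j1) (hy j1), h3 i2 i2.2 j2 (y j2) (hy j2)] at he
  obtain ⟨h5, h6⟩ := h4 i1 i1.2 i2 i2.2 j1 j2 he
  rw [Prod.mk.injEq]
  exact ⟨Fin.ext h5, h6⟩


end EG
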