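import Pool.Agent.EGFour.B3a

set_option autoImplicit false
set_option linter.unusedSectionVars false

open Finset

namespace EG

/-- TARGET: prove this -/
theorem split {V C : Type} [DecidableEq V] [Fintype C] [DecidableEq C] (c : V → V → C)
    (B b : ℕ) (X : Finset V) (hX : Sparse c B X) (X0 X1 : Finset V) (h0 : X0 ⊆ X) (h1 : X1 ⊆ X)
    (hd : Disjoint X0 X1) (hn0 : X0.Nonempty) (hn1 : X1.Nonempty) (f F : ℕ → ℕ)
    (hF : ∀ k, F k + f k + (b + 1) ≤ F (k + 1)) :
    ∃ k < (2 * B + 1) ^ 2, ∃ Z0 Z1 : Finset V, SubC (F k) Z0 X0 ∧ SubC (F k) Z1 X1 ∧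
      (HQ c (f k) b Z0 Z1).card < (2 * B + 1) ^ 2 := by
  by_contra hcon
  push Not at hcon
  obtain ⟨x, y, hx, hy, hinj⟩ := grid c (2 * B + 1) b X0 X1 hn0 hn1 f F hF hcon
  obtain ⟨T, hT⟩ : ∃ T : Finset V, T = Finset.univ.image x ∪ Finset.univ.image y := ⟨_, rfl⟩
  have hxT : ∀ i, x i ∈ T := by
    intro i
    rw [hT]
    exact Finset.mem_union_left _ (Finset.mem_image_of_mem x (Finset.mem_univ i))
  have hyT : ∀ i, y i ∈ T := by
    intro i
    rw [hT]
    exact Finset.mem_union_right _ (Finset.mem_image_of_mem y (Finset.mem_univ i))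
  have hTX : T ⊆ X := by
    rw [hT]
    apply Finset.union_subset
    · intro v hv
      rw [Finset.mem_image] at hv
      obtain ⟨i, _, rfl⟩ := hv
      exact h0 (hx i)
    · intro v hv
      rw [Finset.mem_image] at hv
      obtain ⟨i, _, rfl⟩ := hv
      exact h1 (hy i)
  have hTc : T.card ≤ 2 * (2 * B + 1) := by
    rw [hT]
    refine le_trans (Finset.card_union_le _ _) ?_
    have e1 : (Finset.univ.image x).card ≤ 2 * B + 1 := by
      refine le_trans Finset.card_image_le ?_
      rw [Finset.card_univ, Fintype.card_fin]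
    have e2 : (Finset.univ.image y).card ≤ 2 * B + 1 := by
      refine le_trans Finset.card_image_le ?_
      rw [Finset.card_univ, Fintype.card_fin]
    omega
  have hcol : (2 * B + 1) * (2 * B + 1) ≤ (cols c T).card := by
    have e3 : (Finset.univ.image
        (fun p : Fin (2 * B + 1) × Fin (2 * B + 1) => c (x p.1) (y p.2))).card =
        (2 * B + 1) * (2 * B + 1) := by
      rw [Finset.card_image_of_injective _ hinj, Finset.card_univ, Fintype.card_prod,
        Fintype.card_fin]
    rw [← e3]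
    apply Finset.card_le_card
    intro k hk
    rw [Finset.mem_image] at hk
    obtain ⟨p, _, rfl⟩ := hk
    apply mem_cols (hxT _) (hyT _)
    intro he
    exact (Finset.disjoint_left.1 hd (hx p.1)) (he ▸ hy p.2)
  have hsp := hX T hTX
  have h5 : (2 * B + 1) * (2 * B + 1) ≤ B * (2 * (2 * B + 1)) :=
    le_trans hcol (le_trans hsp (Nat.mul_le_mul_left _ hTc))
  nlinarith


end EG
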