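import Pool.Agent.EGFour.M2

set_option autoImplicit false
set_option linter.unusedSectionVars false

open Finset

namespace EG

/-- TARGET: prove this -/
theorem typS_card {V C : Type} [Fintype C] [DecidableEq C] (c : V → V → C) (n r N : ℕ)
    (Y : Finset V) (D : ℕ) :
    (TypS c n r N Y D).card ≤ ((Fintype.card C + 1) ^ r) ^ N := by
  classical
  set A : Finset (Finset C) := Finset.univ.filter (fun Q => Q.card < r) with hA
  have hAc : A.card ≤ (Fintype.card C + 1) ^ r := by
    have hsub : A ⊆ (Finset.univ : Finset (Fin r → Option C)).image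
        (fun g => Finset.univ.filter (fun k => ∃ i, g i = some k)) := by
      intro Q hQ
      have hQr : Q.card < r := (Finset.mem_filter.1 hQ).2
      rw [Finset.mem_image]
      refine ⟨fun i => if h : (i : ℕ) < Q.card then some (Q.equivFin.symm ⟨i, h⟩ : C) else none,
        Finset.mem_univ _, ?_⟩
      ext k
      simp only [Finset.mem_filter, Finset.mem_univ, true_and]
      constructor
      · rintro ⟨i, hi⟩
        split_ifs at hi with h
        rw [← Option.some.inj hi]
        exact (Q.equivFin.symm ⟨i, h⟩).2
      · intro hk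
        have h1 : ((Q.equivFin ⟨k, hk⟩ : Fin Q.card) : ℕ) < Q.card := (Q.equivFin ⟨k, hk⟩).2
        refine ⟨⟨(Q.equivFin ⟨k, hk⟩ : Fin Q.card), h1.trans hQr⟩, ?_⟩
        rw [dif_pos h1]
        simp
    refine (Finset.card_le_card hsub).trans (Finset.card_image_le.trans ?_)
    rw [Finset.card_univ, Fintype.card_fun, Fintype.card_option, Fintype.card_fin]
  have hT : TypS c n r N Y D ⊆ Fintype.piFinset (fun _ : Fin N => A) := by
    intro Q hQ
    rw [Fintype.mem_piFinset]
    intro i
    have h2 : Typ c n r N Y D Q := by
      unfold TypS at hQ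
      exact (Finset.mem_filter.1 hQ).2
    rw [hA, Finset.mem_filter]
    exact ⟨Finset.mem_univ _, h2.1 i⟩
  refine (Finset.card_le_card hT).trans ?_
  rw [Fintype.card_piFinset, Finset.prod_const, Finset.card_univ, Fintype.card_fin]
  exact Nat.pow_le_pow_left hAc N


end EG
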