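import Pool.Agent.EGFour.B3b

set_option autoImplicit false
set_option linter.unusedSectionVars false

open Finset

namespace EG

/-- TARGET: prove this -/
theorem stab {V T : Type} [DecidableEq T] (X : Finset V) (Θ : Finset V → ℕ → Finset T)
    (a D0 M : ℕ) (hne : ∀ Y ⊆ X, 2 ^ M ≤ Y.card → ∀ D, D0 ≤ D → (Θ Y D).Nonempty) :
    ∀ (H : ℕ) (Y : Finset V) (D : ℕ), Y ⊆ X → D0 + H * a ≤ D → 2 ^ (M + H * a) ≤ Y.card →
      (Θ Y (D + a)).card < 2 ^ H →
      ∃ (Y' : Finset V) (D' : ℕ), SubC (H * a) Y' Y ∧ D0 ≤ D' ∧ D' ≤ D ∧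
        ∀ Z, SubC a Z Y' → (Θ Y' (D' + a)).card < 2 * (Θ Z D').card := by
  intro H
  induction H with
  | zero =>
    intro Y D hYX hD hY hcard
    exfalso
    have h1 := hne Y hYX (by simpa using hY) (D + a) (by omega)
    rw [← Finset.card_pos] at h1
    simp at hcard
    rw [hcard] at h1
    simp at h1
  | succ H ih =>
    intro Y D hYX hD hY hcard
    by_cases hall : ∀ Z, SubC a Z Y → (Θ Y (D + a)).card < 2 * (Θ Z D).card
    · exact ⟨Y, D, SubC.refl' _ _, by omega, le_rfl, hall⟩
    · push Not at hall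
      obtain ⟨Z, hZ, hle⟩ := hall
      have e1 : (H + 1) * a = H * a + a := by ring
      have haD : a ≤ D := by omega
      have e2 : D - a + a = D := Nat.sub_add_cancel haD
      have hZcard : 2 ^ (M + H * a) ≤ Z.card := by
        have h1 := hY.trans hZ.2
        rw [e1, ← add_assoc, pow_add, mul_comm] at h1
        exact Nat.le_of_mul_le_mul_left h1 (by positivity)
      have hΘ : (Θ Z (D - a + a)).card < 2 ^ H := by
        rw [e2]
        rw [pow_succ] at hcard
        omega
      obtain ⟨Y', D', h1, h2, h3, h4⟩ := ih Z (D - a) (hZ.1.trans hYX) (by omega) hZcard hΘ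
      refine ⟨Y', D', ?_, h2, by omega, h4⟩
      rw [e1]
      exact h1.trans hZ


end EG
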