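import Pool.Agent.EGFour.B5

set_option autoImplicit false
set_option linter.unusedSectionVars false

open Finset

namespace EG

/-- TARGET: prove this -/
theorem multi_stab {V T : Type} [DecidableEq T] (X : Finset V) (Θ : Finset V → ℕ → Finset T)
    (hmono : ∀ (a : ℕ) (Z Y : Finset V) (D : ℕ), SubC a Z Y → Θ Z D ⊆ Θ Y (D + a))
    (D0 M H : ℕ) (hne : ∀ Y ⊆ X, 2 ^ M ≤ Y.card → ∀ D, D0 ≤ D → (Θ Y D).Nonempty)
    (hcard : ∀ Y D, (Θ Y D).card < 2 ^ H) (a S : ℕ → ℕ) (hS0 : S 0 = 0)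
    (hS : ∀ k, S (k + 1) = S k + H * a k) :
    ∀ (L : ℕ) (Y : Finset V), Y ⊆ X → 2 ^ (M + S L) ≤ Y.card →
      ∃ Ys : Finset V, SubC (S L) Ys Y ∧ ∀ k < L, ∃ D', D0 ≤ D' ∧ D' ≤ D0 + H * a k ∧
        ∀ (Z0 Z1 : Finset V) (m : ℕ), m + S k ≤ a k → SubC m Z0 Ys → SubC m Z1 Ys →
          (Θ Z0 D' ∩ Θ Z1 D').Nonempty := by
  intro L
  induction L with
  | zero =>
    intro Y _ _
    exact ⟨Y, SubC.refl' _ Y, fun k hk => absurd hk (Nat.not_lt_zero k)⟩
  | succ L ih =>
    intro Y hYX hYc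
    have hc1 : 2 ^ (M + H * a L) ≤ Y.card := by
      refine le_trans (Nat.pow_le_pow_right (by norm_num) ?_) hYc
      rw [hS L]
      omega
    obtain ⟨Y', D', hsub, hD0, hD, hprop⟩ := stab X Θ (a L) D0 M hne H Y (D0 + H * a L) hYX
      le_rfl hc1 (hcard _ _)
    have hY'X : Y' ⊆ X := hsub.1.trans hYX
    have hc2 : 2 ^ (M + S L) ≤ Y'.card := by
      have h1 : 2 ^ (M + S (L + 1)) ≤ 2 ^ (H * a L) * Y'.card := hYc.trans hsub.2
      have h2 : 2 ^ (M + S (L + 1)) = 2 ^ (H * a L) * 2 ^ (M + S L) := by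
        rw [hS L, ← pow_add]
        congr 1
        omega
      rw [h2] at h1
      exact Nat.le_of_mul_le_mul_left h1 (by positivity)
    obtain ⟨Ys, hYs, hk⟩ := ih Y' hY'X hc2
    refine ⟨Ys, ?_, ?_⟩
    · rw [hS L]
      exact SubC.trans hYs hsub
    · intro k hkL
      rcases Nat.lt_succ_iff_lt_or_eq.1 hkL with h | h
      · exact hk k h
      · subst h
        refine ⟨D', hD0, hD, ?_⟩
        intro Z0 Z1 m hm h0 h1
        have hz0 : SubC (a k) Z0 Y' := (SubC.trans h0 hYs).mono hm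
        have hz1 : SubC (a k) Z1 Y' := (SubC.trans h1 hYs).mono hm
        have p0 := hprop Z0 hz0
        have p1 := hprop Z1 hz1
        have s0 := hmono (a k) Z0 Y' D' hz0
        have s1 := hmono (a k) Z1 Y' D' hz1
        by_contra hcon
        rw [Finset.not_nonempty_iff_eq_empty] at hcon
        have hdis : Disjoint (Θ Z0 D') (Θ Z1 D') := Finset.disjoint_iff_inter_eq_empty.2 hcon
        have hu := Finset.card_le_card (Finset.union_subset s0 s1)
        rw [Finset.card_union_of_disjoint hdis] at hu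
        omega


end EG
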