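import Pool.Agent.EGFour.B4c

set_option autoImplicit false
set_option linter.unusedSectionVars false

open Finset

namespace EG

theorem h208_dom_swap {V C : Type} [DecidableEq C] (c : V → V → C)
    (hsym : ∀ x y, c x y = c y x) (n : ℕ) (W0 W1 : Finset V) (Q : Finset C)
    (h : Dom c n W0 W1 Q) : Dom c n W1 W0 Q := by
  unfold Dom at *
  have e : ((W1 ×ˢ W0).filter (fun p => c p.1 p.2 ∉ Q)).card =
      ((W0 ×ˢ W1).filter (fun p => c p.1 p.2 ∉ Q)).card := by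
    apply Finset.card_bij (fun p _ => (p.2, p.1))
    · intro p hp
      simp only [mem_filter, mem_product] at hp ⊢
      refine ⟨⟨hp.1.2, hp.1.1⟩, ?_⟩
      rw [hsym]; exact hp.2
    · intro p _ q _ hpq
      simp only [Prod.mk.injEq] at hpq
      exact Prod.ext hpq.2 hpq.1
    · intro q hq
      simp only [mem_filter, mem_product] at hq
      refine ⟨(q.2, q.1), ?_, rfl⟩
      simp only [mem_filter, mem_product]
      refine ⟨⟨hq.1.2, hq.1.1⟩, ?_⟩
      rw [hsym]; exact hq.2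
  rw [e, mul_comm W1.card]
  exact h

theorem h208_halves {V : Type} [DecidableEq V] (Y : Finset V) (h : 2 ≤ Y.card) :
    ∃ X0 X1 : Finset V, Disjoint X0 X1 ∧ SubC 2 X0 Y ∧ SubC 2 X1 Y ∧ X0.Nonempty ∧
      X1.Nonempty := by
  obtain ⟨X0, h0, h1⟩ := Finset.exists_subset_card_eq (s := Y) (n := Y.card / 2) (by omega)
  have h2 : (Y \ X0).card = Y.card - Y.card / 2 := by rw [card_sdiff_of_subset h0, h1]
  refine ⟨X0, Y \ X0, disjoint_sdiff, ⟨h0, by omega⟩, ⟨sdiff_subset, by omega⟩, ?_, ?_⟩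
  · rw [← card_pos]; omega
  · rw [← card_pos]; omega

/-- TARGET: prove this -/
theorem tree_step {V C : Type} [DecidableEq V] [Fintype C] [DecidableEq C] (c : V → V → C)
    (hsym : ∀ x y, c x y = c y x) (B : ℕ) (X : Finset V) (hX : Sparse c B X)
    (n b l N M D0 H : ℕ) (hn : 1 ≤ n)
    (hb : 256 * n ^ 3 * (B + 1) ^ 2 ≤ 2 ^ b) (hl : 4 * n * Fintype.card C ≤ 2 ^ l)
    (hH : ∀ Y D, (TypS c n ((2 * B + 1) ^ 2) N Y D).card < 2 ^ H)
    (hne : ∀ Y ⊆ X, 2 ^ M ≤ Y.card → (TypS c n ((2 * B + 1) ^ 2) N Y D0).Nonempty)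
    (a f F S : ℕ → ℕ) (hF0 : F 0 = 0) (hS0 : S 0 = 0)
    (ha : ∀ k, a k = S k + F k + 2) (hf : ∀ k, f k = D0 + H * a k + l)
    (hF : ∀ k, F (k + 1) = F k + f k + (b + 1)) (hS : ∀ k, S (k + 1) = S k + H * a k)
    (Y : Finset V) (hY : Y ⊆ X) (hYc : 2 ^ (M + 1 + S ((2 * B + 1) ^ 2)) ≤ Y.card) :
    (TypS c n ((2 * B + 1) ^ 2) (N + 1) Y
      (D0 + S ((2 * B + 1) ^ 2) + F ((2 * B + 1) ^ 2) + H * a ((2 * B + 1) ^ 2) + 2)).Nonempty := by
  have hsplit := split c B b X hX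
  revert hH hne hYc hsplit
  generalize (2 * B + 1) ^ 2 = L
  intro hH hne hYc hsplit
  have hFm : Monotone F := monotone_nat_of_le_succ (fun k => by rw [hF k]; omega)
  have hSm : Monotone S := monotone_nat_of_le_succ (fun k => by rw [hS k]; omega)
  have ham : Monotone a := fun i j hij => by
    rw [ha i, ha j]; have := hFm hij; have := hSm hij; omega
  obtain ⟨Ys, hYs, hsh⟩ := multi_stab X (fun Y D => TypS c n L N Y D)
    (fun a Z Y D h => typS_mono c n L N a Z Y D h) D0 M H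
    (fun Y hY hM D hD => by
      obtain ⟨Q, hQ⟩ := hne Y hY hM
      refine ⟨Q, ?_⟩
      have := typS_mono c n L N (D - D0) Y Y D0 (SubC.refl' _ Y) hQ
      rwa [Nat.add_sub_cancel' hD] at this) hH a S hS0 hS L Y hY
      (le_trans (Nat.pow_le_pow_right (by norm_num) (by omega)) hYc)
  have hcard : 2 ≤ Ys.card := by
    have h1 := hYs.2
    have h2 : 2 ^ (S L) * 2 ^ (M+1) ≤ 2 ^ (S L) * Ys.card := by
      rw [← pow_add, add_comm (S L) (M + 1)]
      exact hYc.trans h1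
    have h3 : 2 ^ (M + 1) ≤ Ys.card := Nat.le_of_mul_le_mul_left h2 (by positivity)
    calc 2 = 2 ^ 1 := rfl
      _ ≤ 2 ^ (M+1) := Nat.pow_le_pow_right (by norm_num) (by omega)
      _ ≤ _ := h3
  obtain ⟨X0, X1, hd, hX0, hX1, hn0, hn1⟩ := h208_halves Ys hcard
  have hX0X : X0 ⊆ X := hX0.1.trans (hYs.1.trans hY)
  have hX1X : X1 ⊆ X := hX1.1.trans (hYs.1.trans hY)
  obtain ⟨k, hk, Z0, Z1, hZ0, hZ1, hQc⟩ := hsplit X0 X1 hX0X hX1X hd hn0 hn1 f F
    (fun k => (hF k).ge)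
  obtain ⟨D', hD1, hD2, hsh'⟩ := hsh k hk
  have hZ0s : SubC (F k + 2) Z0 Ys := hZ0.trans hX0
  have hZ1s : SubC (F k + 2) Z1 Ys := hZ1.trans hX1
  obtain ⟨Q, hQ⟩ := hsh' Z0 Z1 (F k + 2) (by rw [ha k]; omega) hZ0s hZ1s
  rw [mem_inter] at hQ
  unfold TypS at hQ
  simp only [mem_filter, mem_univ, true_and] at hQ
  obtain ⟨⟨hr, Y0, hY0, hU0⟩, ⟨_, Y1, hY1, hU1⟩⟩ := hQ
  have hZd : Disjoint Z0 Z1 := disjoint_of_subset_left hZ0.1 (disjoint_of_subset_right hZ1.1 hd)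
  have hdom : ∀ σ τ, Disjoint (Y0 σ) (Y1 τ) ∧ Dom c n (Y0 σ) (Y1 τ) (HQ c (f k) b Z0 Z1) := by
    intro σ τ
    refine ⟨disjoint_of_subset_left (hY0 σ).1 (disjoint_of_subset_right (hY1 τ).1 hZd), ?_⟩
    exact dominance c B X hX Z0 Z1 (hZ0.1.trans hX0X) (hZ1.1.trans hX1X) hZd
      (hZ0.nonempty hn0) (hZ1.nonempty hn1) n b (f k) D' l hn hb hl
      (by rw [hf k]; omega) (Y0 σ) (Y1 τ) (hY0 σ) (hY1 τ)
  have hcost : ∀ (W Z : Finset V), SubC D' W Z → SubC (F k + 2) Z Ys →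
      SubC (D0 + S L + F L + H * a L + 2) W Y := by
    intro W Z h1 h2
    refine ((h1.trans h2).trans hYs).mono ?_
    have e1 := hFm hk.le
    have e2 : H * a k ≤ H * a L := Nat.mul_le_mul_left _ (ham hk.le)
    omega
  refine ⟨Fin.cons (HQ c (f k) b Z0 Z1) Q, ?_⟩
  unfold TypS
  simp only [mem_filter, mem_univ, true_and]
  refine ⟨?_, fun σ => if σ 0 then Y1 (Fin.tail σ) else Y0 (Fin.tail σ), ?_, ?_⟩
  · intro i
    refine Fin.cases ?_ ?_ i
    · simpa using hQc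
    · intro j
      simpa using hr j
  · intro σ
    by_cases hσ : σ 0 = true
    · simp only [hσ, if_true]
      exact hcost _ _ (hY1 _) hZ1s
    · simp only [hσ, if_false]
      exact hcost _ _ (hY0 _) hZ0s
  · intro σ τ i
    refine Fin.cases ?_ ?_ i
    · intro _ h0
      simp only [Fin.cons_zero]
      by_cases hσ : σ 0 = true
      · have hτ : ¬ (τ 0 = true) := fun h => h0 (hσ.trans h.symm)
        simp only [hσ, hτ, if_true, if_false]
        exact ⟨(hdom _ _).1.symm, h208_dom_swap c hsym n _ _ _ (hdom _ _).2⟩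
      · have hτ : τ 0 = true := by
          cases h1 : σ 0 <;> cases h2 : τ 0 <;> simp_all
        simp only [hσ, hτ, if_true, if_false]
        exact hdom _ _
    · intro j hj hne'
      simp only [Fin.cons_succ]
      have h0 : σ 0 = τ 0 := hj 0 (Fin.succ_pos j)
      have hj' : ∀ i < j, Fin.tail σ i = Fin.tail τ i := by
        intro i hi
        exact hj i.succ (Fin.succ_lt_succ_iff.2 hi)
      have hne2 : Fin.tail σ j ≠ Fin.tail τ j := hne'
      by_cases hσ : σ 0 = true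
      · have hτ : τ 0 = true := h0 ▸ hσ
        simp only [hσ, hτ, if_true]
        exact hU1 _ _ j hj' hne2
      · have hτ : ¬ (τ 0 = true) := h0 ▸ hσ
        simp only [hσ, hτ, if_false]
        exact hU0 _ _ j hj' hne2


end EG
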