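import Pool.Agent.EGFour.B9s

set_option autoImplicit false
set_option linter.unusedSectionVars false

open Finset

namespace EG

/-- TARGET: prove this -/
theorem tree_all (B n : ℕ) (hn : 1 ≤ n) : ∀ N : ℕ, ∃ D : ℕ → ℕ, Slow D ∧
    ∀ (s : ℕ) (V : Type) [DecidableEq V] (c : V → V → Fin s), (∀ x y, c x y = c y x) →
      ∀ X : Finset V, Sparse c B X → ∀ Y ⊆ X, 2 ^ (D s) ≤ Y.card →
        (TypS c n ((2 * B + 1) ^ 2) N Y (D s)).Nonempty := by
  intro N
  induction N with
  | zero =>
    refine ⟨fun _ => 0, slow_const 0, ?_⟩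
    intro s V _ c _ X _ Y _ _
    refine ⟨fun i => i.elim0, ?_⟩
    classical
    unfold TypS
    refine mem_filter.2 ?_
    refine ⟨mem_univ _, fun i => i.elim0, fun _ => Y, fun _ => SubC.refl' 0 Y, ?_⟩
    intro σ τ i
    exact i.elim0
  | succ N ih =>
    obtain ⟨D, hD, hne⟩ := ih
    set L : ℕ := (2 * B + 1) ^ 2 with hL
    set b : ℕ := 256 * n ^ 3 * (B + 1) ^ 2 with hb
    have hlS : Slow (fun s => Nat.log 2 (4 * n * s + 1) + 1) :=
      slow_add (slow_log (4 * n) 1) (slow_const 1)
    have hHS : Slow (fun s => N * (L * (Nat.log 2 (1 * s + 1) + 1)) + 1) :=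
      slow_add (slow_mul (slow_const N) (slow_mul (slow_const L)
        (slow_add (slow_log 1 1) (slow_const 1)))) (slow_const 1)
    obtain ⟨a, f, F, S, hF0, hS0, ha, hf, hF, hS, hSa, hSF, hSS⟩ :=
      seqs_slow b D _ _ hD hHS hlS
    refine ⟨fun s => D s + S s L + F s L +
      (N * (L * (Nat.log 2 (1 * s + 1) + 1)) + 1) * a s L + 2, ?_, ?_⟩
    · exact slow_add (slow_add (slow_add (slow_add hD (hSS L)) (hSF L))
        (slow_mul hHS (hSa L))) (slow_const 2)
    · intro s V _ c hsym X hX Y hY hYc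
      have h1 : 4 * n * Fintype.card (Fin s) ≤ 2 ^ (Nat.log 2 (4 * n * s + 1) + 1) := by
        rw [Fintype.card_fin]
        have := Nat.lt_pow_succ_log_self (b := 2) (by norm_num) (4 * n * s + 1)
        exact le_of_lt (lt_trans (Nat.lt_succ_self _) this)
      have h2 : ∀ Y D, (TypS c n L N Y D).card <
          2 ^ (N * (L * (Nat.log 2 (1 * s + 1) + 1)) + 1) := by
        intro Y D
        refine lt_of_le_of_lt (typS_card c n L N Y D) ?_
        rw [Fintype.card_fin]
        have h3 : s + 1 ≤ 2 ^ (Nat.log 2 (1 * s + 1) + 1) := by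
          have := Nat.lt_pow_succ_log_self (b := 2) (by norm_num) (1 * s + 1)
          have h4 : 1 * s + 1 = s + 1 := by ring
          rw [h4] at this ⊢
          exact le_of_lt this
        calc ((s + 1) ^ L) ^ N
            ≤ ((2 ^ (Nat.log 2 (1 * s + 1) + 1)) ^ L) ^ N :=
              Nat.pow_le_pow_left (Nat.pow_le_pow_left h3 L) N
          _ = 2 ^ (N * (L * (Nat.log 2 (1 * s + 1) + 1))) := by
              rw [← pow_mul, ← pow_mul]
              congr 1
              ring
          _ < 2 ^ (N * (L * (Nat.log 2 (1 * s + 1) + 1)) + 1) :=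
              Nat.pow_lt_pow_right (by norm_num) (Nat.lt_succ_self _)
      refine tree_step c hsym B X hX n b (Nat.log 2 (4 * n * s + 1) + 1) N (D s) (D s)
        (N * (L * (Nat.log 2 (1 * s + 1) + 1)) + 1) hn ?_ h1 h2 ?_ (a s) (f s) (F s) (S s)
        (hF0 s) (hS0 s) (ha s) (hf s) (hF s) (hS s) Y hY ?_
      · exact le_of_lt Nat.lt_two_pow_self
      · intro Y' hY' hc
        exact hne s V c hsym X hX Y' hY' hc
      · refine le_trans (Nat.pow_le_pow_right (by norm_num) ?_) hYc
        have : D s + 1 + S s L ≤ D s + S s L + F s L +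
          (N * (L * (Nat.log 2 (1 * s + 1) + 1)) + 1) * a s L + 2 := by omega
        exact this


end EG
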