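import Pool.Agent.EGFour.SL

set_option autoImplicit false
set_option linter.unusedSectionVars false

open Finset

namespace EG

/-- the pair (F, S) -/
def seqs_slow_P (b : ℕ) (D H l : ℕ → ℕ) (s : ℕ) : ℕ → ℕ × ℕ
  | 0 => (0, 0)
  | k + 1 => ((seqs_slow_P b D H l s k).1 + (D s + H s * ((seqs_slow_P b D H l s k).2 +
      (seqs_slow_P b D H l s k).1 + 2) + l s) + (b + 1),
      (seqs_slow_P b D H l s k).2 + H s * ((seqs_slow_P b D H l s k).2 +
      (seqs_slow_P b D H l s k).1 + 2))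

/-- TARGET: prove this -/
theorem seqs_slow (b : ℕ) (D H l : ℕ → ℕ) (hD : Slow D) (hH : Slow H) (hl : Slow l) :
    ∃ a f F S : ℕ → ℕ → ℕ, (∀ s, F s 0 = 0) ∧ (∀ s, S s 0 = 0) ∧
      (∀ s k, a s k = S s k + F s k + 2) ∧ (∀ s k, f s k = D s + H s * a s k + l s) ∧
      (∀ s k, F s (k + 1) = F s k + f s k + (b + 1)) ∧ (∀ s k, S s (k + 1) = S s k + H s * a s k) ∧
      (∀ k, Slow (fun s => a s k)) ∧ (∀ k, Slow (fun s => F s k)) ∧ (∀ k, Slow (fun s => S s k)) := by
  have hboth : ∀ k, Slow (fun s => (seqs_slow_P b D H l s k).1) ∧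
      Slow (fun s => (seqs_slow_P b D H l s k).2) := by
    intro k
    induction k with
    | zero => exact ⟨slow_const 0, slow_const 0⟩
    | succ k ih =>
      have ha : Slow (fun s => (seqs_slow_P b D H l s k).2 + (seqs_slow_P b D H l s k).1 + 2) :=
        slow_add (slow_add ih.2 ih.1) (slow_const 2)
      exact ⟨slow_add (slow_add ih.1 (slow_add (slow_add hD (slow_mul hH ha)) hl))
        (slow_const (b + 1)), slow_add ih.2 (slow_mul hH ha)⟩
  refine ⟨fun s k => (seqs_slow_P b D H l s k).2 + (seqs_slow_P b D H l s k).1 + 2,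
    fun s k => D s + H s * ((seqs_slow_P b D H l s k).2 + (seqs_slow_P b D H l s k).1 + 2) + l s,
    fun s k => (seqs_slow_P b D H l s k).1, fun s k => (seqs_slow_P b D H l s k).2,
    fun _ => rfl, fun _ => rfl, fun _ _ => rfl, fun _ _ => rfl, fun _ _ => rfl, fun _ _ => rfl,
    fun k => slow_add (slow_add (hboth k).2 (hboth k).1) (slow_const 2),
    fun k => (hboth k).1, fun k => (hboth k).2⟩


end EG
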