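import Pool.Agent.EGFour.M3

set_option autoImplicit false
set_option linter.unusedSectionVars false

open Finset

namespace EG

/-- TARGET: prove this -/
theorem hj_step (r m : ℕ)
    (hm : ∀ (V C : Type) (c : V → V → C), Good c → ∀ (x : (Fin m → Bool) → V)
      (Q : Fin m → Finset C), (∀ i, (Q i).card ≤ r / 2) → ¬ UTree c m x Q) :
    ∃ N : ℕ, ∀ (V C : Type) (c : V → V → C), Good c → ∀ (x : (Fin N → Bool) → V)
      (Q : Fin N → Finset C), (∀ i, (Q i).card ≤ r) → ¬ UTree c N x Q := by
  classical
  obtain ⟨n, hn⟩ := Combinatorics.Subspace.exists_mono_in_high_dimension_fin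
    (Bool × Bool) (Fin r) (Fin (2*m))
  refine ⟨n+1, fun V C c hc x Q hQ hU => ?_⟩
  have hchi : ∀ w : Fin n → Bool × Bool,
      c (x (Fin.cons false (fun i => (w i).1))) (x (Fin.cons true (fun i => (w i).2))) ∈ Q 0 := by
    intro w
    exact (hU _ _ 0 (by intro j hj; exact absurd hj (Fin.not_lt_zero j)) (by simp)).2
  obtain ⟨emb⟩ : Nonempty ((Q 0 : Finset C) ↪ Fin r) := by
    apply Function.Embedding.nonempty_of_card_le
    simpa using hQ 0
  obtain ⟨l, k0, hk0⟩ := hn (fun w => emb ⟨_, hchi w⟩)
  -- the words
  set φ : (Bool × Bool → Bool) → (Fin (2*m) → Bool) → (Fin n → Bool) :=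
    fun f u i => (l.idxFun i).elim f u with hφ
  set u0 : Fin (2*m) → Bool := fun _ => false with hu0
  have key : ∀ u v : Fin (2*m) → Bool,
      c (x (Fin.cons false (φ Prod.fst u))) (x (Fin.cons true (φ Prod.snd v))) =
      c (x (Fin.cons false (φ Prod.fst u0))) (x (Fin.cons true (φ Prod.snd u0))) := by
    intro u v
    have h1 := hk0 (fun e => (u e, v e))
    have h2 := hk0 (fun e => (u0 e, u0 e))
    have h3 := emb.injective (h1.trans h2.symm)
    have h4 := congrArg Subtype.val h3
    have e1 : ∀ p q : Fin (2*m) → Bool, (fun i => (l (fun e => (p e, q e)) i).1) = φ Prod.fst p := by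
      intro p q
      funext i
      simp only [hφ, Combinatorics.Subspace.apply_def]
      cases h : l.idxFun i <;> simp
    have e2 : ∀ p q : Fin (2*m) → Bool, (fun i => (l (fun e => (p e, q e)) i).2) = φ Prod.snd q := by
      intro p q
      funext i
      simp only [hφ, Combinatorics.Subspace.apply_def]
      cases h : l.idxFun i <;> simp
    simp only [e1, e2] at h4
    exact h4
  set k := c (x (Fin.cons false (φ Prod.fst u0))) (x (Fin.cons true (φ Prod.snd u0))) with hk
  -- first occurrences
  have hne : ∀ e : Fin (2*m), (Finset.univ.filter (fun i => l.idxFun i = Sum.inr e)).Nonempty := by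
    intro e
    obtain ⟨i, hi⟩ := l.proper e
    exact ⟨i, by simp [hi]⟩
  set m0 : Fin (2*m) → Fin n := fun e =>
    (Finset.univ.filter (fun i => l.idxFun i = Sum.inr e)).min' (hne e) with hm0
  have hm0a : ∀ e, l.idxFun (m0 e) = Sum.inr e := by
    intro e
    have := Finset.min'_mem _ (hne e)
    simpa using this
  have hm0b : ∀ e i, l.idxFun i = Sum.inr e → m0 e ≤ i := by
    intro e i hi
    exact Finset.min'_le _ _ (by simp [hi])
  have hm0inj : Function.Injective m0 := by
    intro a b hab
    have h1 := hm0a a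
    rw [hab, hm0a b] at h1
    exact (Sum.inr.inj h1).symm
  set π : Equiv.Perm (Fin (2*m)) := Tuple.sort m0 with hπ
  have hmono : StrictMono (m0 ∘ π) :=
    (Tuple.monotone_sort m0).strictMono_of_injective (hm0inj.comp π.injective)
  -- the two sides
  set fs : Bool → (Bool × Bool → Bool) := fun s => if s then Prod.snd else Prod.fst with hfs
  set Y : Bool → (Fin (2*m) → Bool) → V := fun s u =>
    x (Fin.cons s (φ (fs s) (u ∘ π.symm))) with hY
  have hcross : ∀ u v, c (Y false u) (Y true v) = k := by
    intro u v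
    simp only [hY, hfs]
    exact key _ _
  have hcrossne : ∀ u v, Y false u ≠ Y true v := by
    intro u v
    simp only [hY]
    exact (hU _ _ 0 (by intro j hj; exact absurd hj (Fin.not_lt_zero j)) (by simp)).1
  have htree : ∀ (s : Bool) (u u' : Fin (2*m) → Bool) (v : Fin (2*m)),
      (∀ w < v, u w = u' w) → u v ≠ u' v →
      Y s u ≠ Y s u' ∧ c (Y s u) (Y s u') ∈ Q (Fin.succ (m0 (π v))) := by
    intro s u u' v h1 h2
    simp only [hY]
    apply hU
    · intro j hj
      refine Fin.cases ?_ (fun i hi => ?_) j hj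
      · intro _
        simp
      · have hi' : i < m0 (π v) := by simpa using hi
        simp only [Fin.cons_succ, hφ]
        cases h : l.idxFun i with
        | inl a => simp
        | inr e =>
          simp only [Sum.elim_inr, Function.comp]
          apply h1
          have h3 : m0 e < m0 (π v) := lt_of_le_of_lt (hm0b e i h) hi'
          have h4 : (m0 ∘ π) (π.symm e) < (m0 ∘ π) v := by simpa using h3
          exact hmono.lt_iff_lt.1 h4
    · simp only [Fin.cons_succ, hφ, hm0a, Sum.elim_inr, Function.comp]
      simpa using h2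
  -- palettes
  set P : Bool → Fin (2*m) → Finset C := fun s v =>
    (Q (Fin.succ (m0 (π v)))).filter (fun k' => ∃ u u' : Fin (2*m) → Bool,
      (∀ w < v, u w = u' w) ∧ u v ≠ u' v ∧ c (Y s u) (Y s u') = k') with hP
  have hdisj : ∀ v, Disjoint (P false v) (P true v) := by
    intro v
    rw [Finset.disjoint_left]
    intro k' h1 h2
    simp only [hP, Finset.mem_filter] at h1 h2
    obtain ⟨-, u, u', hu1, hu2, hu3⟩ := h1
    obtain ⟨-, w, w', hw1, hw2, hw3⟩ := h2
    exact hc.2 k (Y false u) (Y false u') (Y true w) (Y true w')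
      (htree false u u' v hu1 hu2).1 (htree true w w' v hw1 hw2).1
      (hcrossne _ _) (hcrossne _ _) (hcrossne _ _) (hcrossne _ _)
      (hcross _ _) (hcross _ _) (hcross _ _) (hcross _ _) (hu3.trans hw3.symm)
  have hcard : ∀ v, (P false v).card + (P true v).card ≤ r := by
    intro v
    rw [← Finset.card_union_of_disjoint (hdisj v)]
    refine (Finset.card_le_card ?_).trans (hQ (Fin.succ (m0 (π v))))
    intro k' hk'
    rcases Finset.mem_union.1 hk' with h | h
    · exact (Finset.mem_filter.1 h).1
    · exact (Finset.mem_filter.1 h).1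
  obtain ⟨s, J, hJcard, hJ⟩ : ∃ (s : Bool) (J : Finset (Fin (2*m))), J.card = m ∧
      ∀ v ∈ J, (P s v).card ≤ r / 2 := by
    set A := Finset.univ.filter (fun v => (P false v).card ≤ r / 2) with hA
    have hsum : A.card + Aᶜ.card = 2 * m := by
      rw [Finset.card_add_card_compl]; simp
    by_cases hAm : m ≤ A.card
    · obtain ⟨J, hJs, hJc⟩ := Finset.exists_subset_card_eq hAm
      refine ⟨false, J, hJc, fun v hv => ?_⟩
      exact (Finset.mem_filter.1 (hJs hv)).2
    · obtain ⟨J, hJs, hJc⟩ := Finset.exists_subset_card_eq (show m ≤ Aᶜ.card by omega)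
      refine ⟨true, J, hJc, fun v hv => ?_⟩
      have h1 := hJs hv
      simp only [hA, Finset.mem_compl, Finset.mem_filter, Finset.mem_univ, true_and, not_le] at h1
      have h2 := hcard v
      omega
  set g : Fin m ↪o Fin (2*m) := J.orderEmbOfFin hJcard with hg
  refine hm V C c hc (fun u => Y s (Function.extend g u (fun _ => false)))
    (fun i => P s (g i)) (fun i => hJ _ (Finset.orderEmbOfFin_mem _ _ _)) ?_
  intro σ τ i h1 h2
  have h3 : ∀ w < g i, Function.extend g σ (fun _ => false) w =
      Function.extend g τ (fun _ => false) w := by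
    intro w hw
    by_cases hex : ∃ j, g j = w
    · obtain ⟨j, rfl⟩ := hex
      rw [g.injective.extend_apply, g.injective.extend_apply]
      exact h1 j (g.lt_iff_lt.1 hw)
    · rw [Function.extend_apply' _ _ _ hex, Function.extend_apply' _ _ _ hex]
  have h4 : Function.extend g σ (fun _ => false) (g i) ≠
      Function.extend g τ (fun _ => false) (g i) := by
    rw [g.injective.extend_apply, g.injective.extend_apply]
    exact h2
  have h5 := htree s _ _ (g i) h3 h4
  refine ⟨h5.1, ?_⟩
  simp only [hP, Finset.mem_filter]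
  exact ⟨h5.2, _, _, h3, h4, rfl⟩


end EG
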