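import Pool.Agent.EGFour.B7

set_option autoImplicit false
set_option linter.unusedSectionVars false

open Finset

namespace EG

/-- `g` grows slower than every positive power -/
def Slow (g : ℕ → ℕ) : Prop :=
  ∀ ε : ℝ, 0 < ε → (fun s : ℕ => (g s : ℝ)) =O[Filter.atTop] (fun s : ℕ => (s : ℝ) ^ ε)


end EG
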