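import Mathlib

set_option autoImplicit false
set_option linter.unusedSectionVars false

open Finset

namespace EG

/-- a symmetric colouring without four distinct points `x, x', y, y'` whose four cross pairs have
one colour and with `c x x' = c y y'` -/
def Good {V C : Type} (c : V → V → C) : Prop :=
  (∀ x y, c x y = c y x) ∧
  ∀ (k : C) (x x' y y' : V), x ≠ x' → y ≠ y' → x ≠ y → x ≠ y' → x' ≠ y → x' ≠ y' →
    c x y = k → c x y' = k → c x' y = k → c x' y' = k → c x x' ≠ c y y'

/-- the colours appearing inside `T` -/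
def cols {V C : Type} [DecidableEq V] [DecidableEq C] (c : V → V → C) (T : Finset V) : Finset C :=
  T.offDiag.image (fun p => c p.1 p.2)

/-- every subset `T` of `X` sees at most `B |T|` colours -/
def Sparse {V C : Type} [DecidableEq V] [DecidableEq C] (c : V → V → C) (B : ℕ)
    (X : Finset V) : Prop :=
  ∀ T ⊆ X, (cols c T).card ≤ B * T.card

/-- the neighbours of `y` in `X` in colour `k` -/
def nb {V C : Type} [DecidableEq V] [DecidableEq C] (c : V → V → C) (X : Finset V) (k : C)
    (y : V) : Finset V :=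
  X.filter (fun z => z ≠ y ∧ c y z = k)

/-- `Z` is a subset of `Y` of relative size at least `2^(-a)` -/
def SubC {V : Type} (a : ℕ) (Z Y : Finset V) : Prop := Z ⊆ Y ∧ Y.card ≤ 2 ^ a * Z.card

theorem SubC.refl' {V : Type} (a : ℕ) (Y : Finset V) : SubC a Y Y :=
  ⟨subset_rfl, Nat.le_mul_of_pos_left _ (by positivity)⟩

theorem SubC.mono {V : Type} {a b : ℕ} {Z Y : Finset V} (h : SubC a Z Y) (hab : a ≤ b) :
    SubC b Z Y :=
  ⟨h.1, h.2.trans (Nat.mul_le_mul_right _ (Nat.pow_le_pow_right (by norm_num) hab))⟩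

theorem SubC.trans {V : Type} {a b : ℕ} {W Z Y : Finset V} (h1 : SubC a W Z) (h2 : SubC b Z Y) :
    SubC (a + b) W Y := by
  refine ⟨h1.1.trans h2.1, h2.2.trans ?_⟩
  calc 2 ^ b * Z.card ≤ 2 ^ b * (2 ^ a * W.card) := Nat.mul_le_mul_left _ h1.2
    _ = 2 ^ (a + b) * W.card := by rw [pow_add]; ring

theorem SubC.nonempty {V : Type} {a : ℕ} {Z Y : Finset V} (h : SubC a Z Y) (hY : Y.Nonempty) :
    Z.Nonempty := by
  rw [← card_pos] at hY ⊢
  rcases Nat.eq_zero_or_pos Z.card with h0 | h0
  · have := h.2; rw [h0] at this; omega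
  · exact h0

theorem mem_cols {V C : Type} [DecidableEq V] [DecidableEq C] {c : V → V → C} {T : Finset V}
    {x y : V} (hx : x ∈ T) (hy : y ∈ T) (hxy : x ≠ y) : c x y ∈ cols c T := by
  unfold cols
  exact mem_image.2 ⟨(x, y), by simp [mem_offDiag, hx, hy, hxy], rfl⟩

/-- the number of pairs in `W0 × W1` of colour `k` -/
def ecol {V C : Type} [DecidableEq C] (c : V → V → C) (k : C) (W0 W1 : Finset V) : ℕ :=
  ((W0 ×ˢ W1).filter (fun p => c p.1 p.2 = k)).card

open Classical in
/-- the colours of density at least `2^(-b)` between some subsets `W0 ⊆ Z0`, `W1 ⊆ Z1` of relative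
size at least `2^(-e)` -/
noncomputable def HQ {V C : Type} [Fintype C] [DecidableEq C] (c : V → V → C) (e b : ℕ)
    (Z0 Z1 : Finset V) : Finset C :=
  Finset.univ.filter (fun k => ∃ W0 W1 : Finset V, SubC e W0 Z0 ∧ SubC e W1 Z1 ∧
    W0.card * W1.card ≤ 2 ^ b * ecol c k W0 W1)

/-- at most a `1/n` fraction of the pairs of `W0 × W1` has its colour outside `Q` -/
def Dom {V C : Type} [DecidableEq C] (c : V → V → C) (n : ℕ) (W0 W1 : Finset V)
    (Q : Finset C) : Prop :=
  n * ((W0 ×ˢ W1).filter (fun p => c p.1 p.2 ∉ Q)).card ≤ W0.card * W1.card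

/-- a family of cells indexed by the leaves of the binary tree of height `N`, such that the pairs
between leaves with first difference `i` are dominated by the palette `Q i` -/
def UT {V C : Type} [DecidableEq C] (c : V → V → C) (n N : ℕ) (Z : (Fin N → Bool) → Finset V)
    (Q : Fin N → Finset C) : Prop :=
  ∀ (σ τ : Fin N → Bool) (i : Fin N), (∀ j < i, σ j = τ j) → σ i ≠ τ i →
    Disjoint (Z σ) (Z τ) ∧ Dom c n (Z σ) (Z τ) (Q i)

/-- `Q` is a type realised inside `Y` at cost `D` -/
def Typ {V C : Type} [DecidableEq C] (c : V → V → C) (n r N : ℕ) (Y : Finset V) (D : ℕ)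
    (Q : Fin N → Finset C) : Prop :=
  (∀ i, (Q i).card < r) ∧ ∃ Z : (Fin N → Bool) → Finset V, (∀ σ, SubC D (Z σ) Y) ∧ UT c n N Z Q

open Classical in
/-- the set of all types realised inside `Y` at cost `D` -/
noncomputable def TypS {V C : Type} [Fintype C] [DecidableEq C] (c : V → V → C) (n r N : ℕ)
    (Y : Finset V) (D : ℕ) : Finset (Fin N → Finset C) :=
  Finset.univ.filter (fun Q => Typ c n r N Y D Q)

/-- points indexed by the leaves of the binary tree with colours given by the palettes -/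
def UTree {V C : Type} (c : V → V → C) (N : ℕ) (x : (Fin N → Bool) → V)
    (Q : Fin N → Finset C) : Prop :=
  ∀ (σ τ : Fin N → Bool) (i : Fin N), (∀ j < i, σ j = τ j) → σ i ≠ τ i →
    x σ ≠ x τ ∧ c (x σ) (x τ) ∈ Q i

/-- the potential -/
noncomputable def Psi {V C : Type} [DecidableEq V] [DecidableEq C] (a : ℝ) (c : V → V → C)
    (X : Finset V) : ℝ :=
  Real.log X.card - a * (cols c X).card

/-- `X` maximises the potential among its nonempty subsets -/
def PMax {V C : Type} [DecidableEq V] [DecidableEq C] (a : ℝ) (c : V → V → C)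
    (X : Finset V) : Prop :=
  X.Nonempty ∧ ∀ U ⊆ X, U.Nonempty → Psi a c U ≤ Psi a c X

end EG
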