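import Pool.Agent.EGFour.M4

set_option autoImplicit false
set_option linter.unusedSectionVars false

open Finset

namespace EG

/-- a colouring of `K_n` such that every four vertices span at least three colours is `Good` -/
theorem good_of_sym2 {n k s : ℕ} (c : Sym2 (Fin n) → Fin k) (hks : k ≤ s)
    (h : ∀ S : Finset (Fin n), S.card = 4 →
        3 ≤ (((S ×ˢ S).filter (fun p : Fin n × Fin n => p.1 ≠ p.2)).image
              (fun p : Fin n × Fin n => c s(p.1, p.2))).card) :
    Good (fun x y : Fin n => Fin.castLE hks (c s(x, y))) := by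
  refine ⟨fun x y => by show Fin.castLE hks (c s(x, y)) = Fin.castLE hks (c s(y, x)); rw [Sym2.eq_swap], ?_⟩
  intro kk x x' y y' hxx hyy h1 h2 h3 h4 e1 e2 e3 e4 hcon
  have hS : ({x, x', y, y'} : Finset (Fin n)).card = 4 := by
    rw [card_insert_of_notMem, card_insert_of_notMem, card_insert_of_notMem, card_singleton]
    · simpa using hyy
    · simp only [mem_insert, mem_singleton, not_or]; exact ⟨h3, h4⟩
    · simp only [mem_insert, mem_singleton, not_or]; exact ⟨hxx, h1, h2⟩
  have h5 := h _ hS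
  have hinj : Function.Injective (Fin.castLE hks) := Fin.castLE_injective hks
  have f1 : c s(x, y') = c s(x, y) := hinj (e2.trans e1.symm)
  have f2 : c s(x', y) = c s(x, y) := hinj (e3.trans e1.symm)
  have f3 : c s(x', y') = c s(x, y) := hinj (e4.trans e1.symm)
  have f4 : c s(x, x') = c s(y, y') := hinj hcon
  have hsub : ((({x, x', y, y'} : Finset (Fin n)) ×ˢ ({x, x', y, y'} : Finset (Fin n))).filter
      (fun p : Fin n × Fin n => p.1 ≠ p.2)).image (fun p : Fin n × Fin n => c s(p.1, p.2)) ⊆
      {c s(x, y), c s(y, y')} := by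
    intro col hcol
    simp only [mem_image, mem_filter, mem_product, mem_insert, mem_singleton, Prod.exists] at hcol
    obtain ⟨u, v, ⟨⟨hu, hv⟩, huv⟩, rfl⟩ := hcol
    simp only [mem_insert, mem_singleton]
    have g1 : c s(y, x) = c s(x, y) := by rw [Sym2.eq_swap]
    have g2 : c s(y', x) = c s(x, y) := by rw [Sym2.eq_swap]; exact f1
    have g3 : c s(y, x') = c s(x, y) := by rw [Sym2.eq_swap]; exact f2
    have g4 : c s(y', x') = c s(x, y) := by rw [Sym2.eq_swap]; exact f3
    have g5 : c s(x', x) = c s(y, y') := by rw [Sym2.eq_swap]; exact f4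
    have g6 : c s(y', y) = c s(y, y') := by rw [Sym2.eq_swap]
    rcases hu with rfl | rfl | rfl | rfl <;> rcases hv with rfl | rfl | rfl | rfl <;>
      simp_all
  have h6 := card_le_card hsub
  have h7 : ({c s(x, y), c s(y, y')} : Finset (Fin k)).card ≤ 2 := card_le_two
  omega

theorem final : ∀ C : ℝ, ∃ N : ℕ, ∀ n : ℕ, N ≤ n → ∀ k : ℕ, ∀ c : Sym2 (Fin n) → Fin k,
      (∀ S : Finset (Fin n), S.card = 4 →
        3 ≤ (((S ×ˢ S).filter (fun p : Fin n × Fin n => p.1 ≠ p.2)).image
              (fun p : Fin n × Fin n => c s(p.1, p.2))).card) →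
      C * Real.log (n : ℝ) ≤ (k : ℝ) := by
  intro C
  have hpos : (0 : ℝ) < |C| + 1 := by positivity
  obtain ⟨s0, hs0⟩ := main_log (1 / (|C| + 1)) (by positivity)
  have hlim : ∀ᶠ n : ℕ in Filter.atTop, (1 / (|C| + 1)) * (s0 : ℝ) ≤ Real.log n :=
    (Real.tendsto_log_atTop.comp tendsto_natCast_atTop_atTop).eventually_ge_atTop _
  obtain ⟨N, hN⟩ := Filter.eventually_atTop.1 hlim
  refine ⟨max N 1, fun n hn k c h => ?_⟩
  have hn1 : 1 ≤ n := le_trans (le_max_right _ _) hn
  have hnN : N ≤ n := le_trans (le_max_left _ _) hn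
  have hlog0 : 0 ≤ Real.log n := Real.log_nonneg (by exact_mod_cast hn1)
  rcases le_total s0 k with hk | hk
  · have h1 := hs0 k hk n _ (good_of_sym2 c le_rfl h)
    have h2 : (|C| + 1) * Real.log n < k := by
      have h3 := mul_lt_mul_of_pos_left h1 hpos
      have h4 : (|C| + 1) * (1 / (|C| + 1) * (k : ℝ)) = k := by field_simp
      rw [h4] at h3
      exact h3
    have h5 : C * Real.log n ≤ (|C| + 1) * Real.log n :=
      mul_le_mul_of_nonneg_right (by linarith [le_abs_self C]) hlog0
    linarith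
  · exfalso
    have h1 := hs0 s0 le_rfl n _ (good_of_sym2 c hk h)
    have h2 := hN n hnN
    linarith

end EG
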