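import Pool.Agent.EGFour.A5

set_option autoImplicit false
set_option linter.unusedSectionVars false

open Finset

namespace EG

theorem exists_pmax {V C : Type} [DecidableEq V] [DecidableEq C] (c : V → V → C) (a : ℝ)
    (Y : Finset V) (hY : Y.Nonempty) : ∃ X ⊆ Y, PMax a c X ∧ Psi a c Y ≤ Psi a c X := by
  obtain ⟨X, hX, hmax⟩ := exists_max_image (Y.powerset.filter (fun U => U.Nonempty)) (Psi a c)
    ⟨Y, by simp [hY]⟩
  simp only [mem_filter, mem_powerset] at hX hmax
  exact ⟨X, hX.1, ⟨hX.2, fun U hU hn => hmax U ⟨hU.trans hX.1, hn⟩⟩, hmax Y ⟨subset_rfl, hY⟩⟩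


end EG
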