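import Pool.Agent.EGFour.B6

set_option autoImplicit false
set_option linter.unusedSectionVars false

open Finset

namespace EG

theorem typS_mono {V C : Type} [Fintype C] [DecidableEq C] (c : V → V → C) (n r N : ℕ)
    (a : ℕ) (Z Y : Finset V) (D : ℕ) (h : SubC a Z Y) :
    TypS c n r N Z D ⊆ TypS c n r N Y (D + a) := by
  intro Q hQ
  unfold TypS at hQ ⊢
  simp only [mem_filter, mem_univ, true_and] at hQ ⊢
  obtain ⟨h1, W, hW, hU⟩ := hQ
  exact ⟨h1, W, fun σ => (hW σ).trans h, hU⟩


end EG
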