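import Pool.Agent.EGFour.B10

set_option autoImplicit false
set_option linter.unusedSectionVars false

open Finset

namespace EG

theorem partII (B N : ℕ) : ∃ D : ℕ → ℕ, Slow D ∧
    ∀ (s : ℕ) (V : Type) [DecidableEq V] (c : V → V → Fin s), (∀ x y, c x y = c y x) →
      ∀ X : Finset V, Sparse c B X → 2 ^ (D s) ≤ X.card →
        ∃ (x : (Fin N → Bool) → V) (Q : Fin N → Finset (Fin s)),
          (∀ i, (Q i).card < (2 * B + 1) ^ 2) ∧ UTree c N x Q := by
  obtain ⟨D, hD, h⟩ := tree_all B (4 ^ N + 1) (Nat.le_add_left 1 _) N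
  refine ⟨D, hD, fun s V _ c hsym X hX hc => ?_⟩
  obtain ⟨Q, hQ⟩ := h s V c hsym X hX X subset_rfl hc
  unfold TypS at hQ
  simp only [mem_filter, mem_univ, true_and] at hQ
  obtain ⟨h1, Z, hZ, hU⟩ := hQ
  have hne : X.Nonempty := by
    rw [← card_pos]; exact lt_of_lt_of_le (by positivity) hc
  obtain ⟨x, hx⟩ := select c (4 ^ N + 1) N (Nat.lt_succ_self _) Z (fun σ => (hZ σ).nonempty hne) Q hU
  exact ⟨x, Q, h1, hx⟩


end EG
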