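import Pool.Agent.EGFour.P3

set_option autoImplicit false
set_option linter.unusedSectionVars false

open Finset

namespace EG

theorem main_log (α : ℝ) (hα : 0 < α) : ∃ s0 : ℕ, ∀ s : ℕ, s0 ≤ s → ∀ (n : ℕ)
    (c : Fin n → Fin n → Fin s), Good c → Real.log n < α * s := by
  obtain ⟨B, s1, hI⟩ := partI α hα
  obtain ⟨N, hN⟩ := partIII ((2 * B + 1) ^ 2)
  obtain ⟨D, hD, hII⟩ := partII B N
  have hslow : ∀ᶠ s : ℕ in Filter.atTop, (D s : ℝ) ≤ α / 4 * s :=
    slow_use hD (α / 4) (by positivity)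
  obtain ⟨s2, hs2⟩ := Filter.eventually_atTop.1 hslow
  refine ⟨max (max s1 s2) 1, fun s hs n c hc => ?_⟩
  by_contra hcon
  push Not at hcon
  have hs1 : s1 ≤ s := le_trans (le_trans (le_max_left _ _) (le_max_left _ _)) hs
  have hs2' : s2 ≤ s := le_trans (le_trans (le_max_right _ _) (le_max_left _ _)) hs
  have hs3 : 1 ≤ s := le_trans (le_max_right _ _) hs
  obtain ⟨X, hX, hXc⟩ := hI s hs1 (Fin n) c hc (by simpa using hcon)
  have h2 := hs2 s hs2'
  have hspos : (0 : ℝ) < α * s / 4 := by positivity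
  have hXpos : 0 < X.card := by
    rcases Nat.eq_zero_or_pos X.card with h0 | h0
    · rw [h0] at hXc
      simp at hXc
      linarith
    · exact h0
  have hcard : 2 ^ (D s) ≤ X.card := by
    have h3 : Real.log (2 ^ (D s) : ℝ) ≤ Real.log X.card := by
      rw [Real.log_pow]
      have hl2 : Real.log 2 ≤ 1 := by
        have := Real.log_two_lt_d9
        linarith
      have : (D s : ℝ) * Real.log 2 ≤ D s := by
        have h0 : (0 : ℝ) ≤ D s := Nat.cast_nonneg _
        nlinarith
      calc (D s : ℝ) * Real.log 2 ≤ D s := this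
        _ ≤ α / 4 * s := h2
        _ = α * s / 4 := by ring
        _ ≤ _ := hXc
    have h4 := (Real.log_le_log_iff (by positivity) (by exact_mod_cast hXpos)).1 h3
    exact_mod_cast h4
  obtain ⟨x, Q, hQ, hT⟩ := hII s (Fin n) c hc.1 X hX hcard
  exact hN (Fin n) (Fin s) c hc x Q (fun i => (hQ i).le) hT


end EG
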