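import Pool.Agent.EGFour.C1

set_option autoImplicit false
set_option linter.unusedSectionVars false

open Finset

namespace EG

/-- C2 -/
theorem partIII (r : ℕ) :
    ∃ N : ℕ, ∀ (V C : Type) (c : V → V → C), Good c → ∀ (x : (Fin N → Bool) → V)
      (Q : Fin N → Finset C), (∀ i, (Q i).card ≤ r) → ¬ UTree c N x Q := by
  induction r using Nat.strong_induction_on with
  | _ r ih =>
    rcases Nat.eq_zero_or_pos r with h0 | h0
    · subst h0
      refine ⟨1, fun V C c hc x Q hQ hT => ?_⟩
      have h := (hT (fun _ => false) (fun _ => true) 0 (by simp) (by simp)).2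
      have h2 := hQ 0
      rw [Nat.le_zero, card_eq_zero] at h2
      rw [h2] at h
      simp at h
    · obtain ⟨m, hm⟩ := ih (r / 2) (Nat.div_lt_self h0 (by norm_num))
      exact hj_step r m hm


end EG
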