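import Pool.Agent.EGFour.DEFS

set_option autoImplicit false
set_option linter.unusedSectionVars false

open Finset

namespace EG

/-- TARGET: prove all five theorems below -/
theorem slow_const (m : ℕ) : Slow (fun _ => m) := by
  intro ε hε
  refine Asymptotics.IsBigO.of_bound (m : ℝ) ?_
  filter_upwards [Filter.eventually_ge_atTop 1] with s hs
  have h1 : (1 : ℝ) ≤ (s : ℝ) ^ ε := Real.one_le_rpow (by exact_mod_cast hs) hε.le
  rw [Real.norm_of_nonneg (by positivity), Real.norm_of_nonneg (by positivity)]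
  nlinarith [(Nat.cast_nonneg m : (0 : ℝ) ≤ m)]

/-- S2 -/
theorem slow_add {f g : ℕ → ℕ} (hf : Slow f) (hg : Slow g) : Slow (fun s => f s + g s) := by
  intro ε hε
  have h := (hf ε hε).add (hg ε hε)
  simpa only [Nat.cast_add] using h

/-- S3 -/
theorem slow_mul {f g : ℕ → ℕ} (hf : Slow f) (hg : Slow g) : Slow (fun s => f s * g s) := by
  intro ε hε
  have h := (hf (ε / 2) (by positivity)).mul (hg (ε / 2) (by positivity))
  have h2 : (fun s : ℕ => (s : ℝ) ^ (ε / 2) * (s : ℝ) ^ (ε / 2)) =ᶠ[Filter.atTop]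
      (fun s : ℕ => (s : ℝ) ^ ε) := by
    filter_upwards [Filter.eventually_ge_atTop 1] with s hs
    have hs' : (0 : ℝ) < s := by exact_mod_cast hs
    rw [← Real.rpow_add hs', add_halves]
  have h3 := h.trans_eventuallyEq h2
  simpa only [Nat.cast_mul] using h3

/-- S4 -/
theorem slow_log (m1 m2 : ℕ) : Slow (fun s => Nat.log 2 (m1 * s + m2)) := by
  intro ε hε
  have h1 : (fun s : ℕ => Real.log (s : ℝ)) =O[Filter.atTop] (fun s : ℕ => (s : ℝ) ^ ε) :=
    ((isLittleO_log_rpow_atTop hε).isBigO).comp_tendsto tendsto_natCast_atTop_atTop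
  have h2 : (fun _ : ℕ => Real.log ((m1 : ℝ) + 1)) =O[Filter.atTop] (fun s : ℕ => (s : ℝ) ^ ε) := by
    refine Asymptotics.IsBigO.of_bound |Real.log ((m1 : ℝ) + 1)| ?_
    filter_upwards [Filter.eventually_ge_atTop 1] with s hs
    have h1 : (1 : ℝ) ≤ (s : ℝ) ^ ε := Real.one_le_rpow (by exact_mod_cast hs) hε.le
    rw [Real.norm_eq_abs, Real.norm_of_nonneg (by positivity)]
    nlinarith [abs_nonneg (Real.log ((m1 : ℝ) + 1))]
  have h3 : (fun s : ℕ => (Nat.log 2 (m1 * s + m2) : ℝ)) =O[Filter.atTop]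
      (fun s : ℕ => Real.log ((m1 : ℝ) + 1) + Real.log (s : ℝ)) := by
    refine Asymptotics.IsBigO.of_bound (1 / Real.log 2) ?_
    filter_upwards [Filter.eventually_ge_atTop (m2 + 1)] with s hs
    have hs1 : (1 : ℝ) ≤ s := by
      have : 1 ≤ s := by omega
      exact_mod_cast this
    have hl2 : 0 < Real.log 2 := Real.log_pos (by norm_num)
    have hlm : 0 ≤ Real.log ((m1 : ℝ) + 1) :=
      Real.log_nonneg (by have := (Nat.cast_nonneg m1 : (0 : ℝ) ≤ m1); linarith)
    have hls : 0 ≤ Real.log (s : ℝ) := Real.log_nonneg hs1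
    rw [Real.norm_of_nonneg (by positivity), Real.norm_of_nonneg (by positivity)]
    by_cases h0 : m1 * s + m2 = 0
    · rw [h0]
      simp only [Nat.log_zero_right, Nat.cast_zero]
      positivity
    · have h4 : 2 ^ Nat.log 2 (m1 * s + m2) ≤ m1 * s + m2 := Nat.pow_log_le_self 2 h0
      have h5 : m1 * s + m2 ≤ (m1 + 1) * s := by
        have : m2 ≤ s := by omega
        nlinarith
      have h6 : ((2 : ℝ)) ^ Nat.log 2 (m1 * s + m2) ≤ ((m1 : ℝ) + 1) * s := by
        exact_mod_cast h4.trans h5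
      have h7 : (Nat.log 2 (m1 * s + m2) : ℝ) * Real.log 2 ≤
          Real.log ((m1 : ℝ) + 1) + Real.log (s : ℝ) := by
        rw [← Real.log_pow, ← Real.log_mul (by positivity) (by positivity)]
        exact Real.log_le_log (by positivity) h6
      rw [div_mul_eq_mul_div, one_mul, le_div_iff₀ hl2]
      exact h7
  exact h3.trans (h2.add h1)

/-- S5 -/
theorem slow_use {f : ℕ → ℕ} (hf : Slow f) (ε : ℝ) (hε : 0 < ε) :
    ∀ᶠ s : ℕ in Filter.atTop, (f s : ℝ) ≤ ε * s := by
  have h1 := hf (1 / 2) (by norm_num)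
  have h2 : (fun s : ℕ => (s : ℝ) ^ ((1 : ℝ) / 2)) =o[Filter.atTop]
      (fun s : ℕ => (s : ℝ) ^ (1 : ℝ)) := by
    refine Asymptotics.isLittleO_of_tendsto' ?_ ?_
    · filter_upwards [Filter.eventually_ge_atTop 1] with s hs h0
      have hs' : (0 : ℝ) < (s : ℝ) := by exact_mod_cast hs
      rw [Real.rpow_one] at h0
      exact absurd h0 hs'.ne'
    · have h4 : Filter.Tendsto (fun s : ℕ => (s : ℝ) ^ (-((1 : ℝ) / 2))) Filter.atTop (nhds 0) :=
        (tendsto_rpow_neg_atTop (by norm_num : (0 : ℝ) < 1 / 2)).comp tendsto_natCast_atTop_atTop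
      refine h4.congr' ?_
      filter_upwards [Filter.eventually_ge_atTop 1] with s hs
      have hs' : (0 : ℝ) < (s : ℝ) := by exact_mod_cast hs
      rw [← Real.rpow_sub hs']
      norm_num
  have h3 := (h1.trans_isLittleO h2).bound hε
  filter_upwards [h3] with s hs
  rw [Real.norm_of_nonneg (by positivity), Real.norm_of_nonneg (by positivity), Real.rpow_one] at hs
  exact hs


end EG
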